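import Pool.Agent.H86.OC.RASa

/-!
# Full rows in the plane, gaps in the times: data and statements

`KD`: a random line with a random time in a context `b`; `W` is the exact point and time, `o` the
velocity, `N` the position (units `2 ^ (-X)`). If the velocities of the lines through a point are
not near a line of the plane, the position is full given the time.

`CD`: three lines through the same point at the same time, with velocities `0`, `e₁`, `e₂`.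
-/

set_option autoImplicit false

namespace Pool.KS2

open Finset Real
open Pool.Agent.H49.Ent Pool.Agent.H32.Dense Pool.STK Pool.KAF Pool.OC Pool.OC.RS Pool.KAL Pool.KX

/-- The data of the theorem. -/
structure KD where
  Om : Type
  Lam : Type
  Tau : Type
  Bet : Type
  Xi : Type
  [fin : Fintype Om]
  P : Om → ℝ
  L : Om → Lam
  T : Om → Tau
  b : Om → Bet
  W : Om → Xi
  th : Om → ℝ
  o : Fin 2 → Om → ℝ
  N : Fin 2 → Om → ℤ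
  X : ℕ

attribute [instance] KD.fin

namespace KD

variable (d : KD)

/-- The first `i` digits of the time. -/
noncomputable def Ti (i : ℕ) (ω : d.Om) : ℤ := ⌊(2 : ℝ) ^ i * d.th ω⌋

/-- The probability that a second time of the window `i` is near the time of the sample. -/
noncomputable def dead (k' i : ℕ) (ω : d.Om) : ℝ :=
  Pr (cond d.P (fun v => (d.L v, (d.b v, d.Ti i v))) (d.L ω, (d.b ω, d.Ti i ω)))
    {v | |d.th v - d.th ω| < (2 : ℝ) ^ (-((i : ℤ) + k'))}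

/-- The basic assumptions. -/
structure OK (A B : ℕ) : Prop where
  law : IsLaw d.P
  hth : Det d.P (fun ω => (d.T ω, d.b ω)) d.th
  ho : ∀ k, Det d.P (fun ω => (d.L ω, d.b ω)) (d.o k)
  hB : ∀ ω, 0 < d.P ω → ∀ k, |d.o k ω| ≤ 2 ^ B
  hW : Det d.P d.W (fun ω => (d.T ω, (d.b ω, (d.N 0 ω, d.N 1 ω))))
  hN : ∀ ω ω', 0 < d.P ω → 0 < d.P ω' → d.L ω = d.L ω' → d.b ω = d.b ω' → ∀ k,
    |((d.N k ω' : ℝ) - d.N k ω) - 2 ^ d.X * ((d.th ω' - d.th ω) * d.o k ω)| ≤ 2 ^ A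

/-- The samples `ω` such that, given the exact point and time of `ω`, the velocity is near a line
of the plane with probability larger than `δ`. -/
def flat (g : ℕ) (δ : ℝ) : Set d.Om :=
  {ω | ∃ α β γ : ℝ, α ^ 2 + β ^ 2 = 1 ∧
    δ < Pr (cond d.P d.W (d.W ω)) {v | |α * d.o 0 v + β * d.o 1 v - γ| ≤ 1 / 2 ^ g}}

end KD

/-- **K_SAT2.** -/
def KSat2Stmt : Prop :=
  ∀ (A B k' : ℕ) (c ε : ℝ), 0 < c → 0 < ε → ∃ (δ : ℝ) (X₀ : ℕ), 0 < δ ∧ ∀ (d : KD) (g : ℕ),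
    d.OK A B → X₀ ≤ d.X → (g : ℝ) ≤ δ * d.X → mi d.P d.T d.L d.b ≤ δ * d.X →
    Pr d.P (d.flat g δ) ≤ δ → ∀ D : ℕ → Set d.Om,
    (∀ i ω, 0 < d.P ω → ω ∉ D i → d.dead k' i ω ≤ 1 - c) →
    (2 - ε) * d.X * Real.log 2 - 2 * Real.log 2 * ∑ i ∈ Finset.range d.X, Pr d.P (D i) ≤
      CH d.P (fun ω => (d.N 0 ω, d.N 1 ω)) (fun ω => (d.T ω, d.b ω))

/-- Three lines through the point of the sample. -/
structure CD where
  Om : Type
  Lam : Type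
  Tau : Type
  Bet : Type
  Gam : Type
  [fin : Fintype Om]
  P : Om → ℝ
  L : Fin 3 → Om → Lam
  T : Om → Tau
  b : Om → Bet
  a : Om → Gam
  th : Om → ℝ
  N : Fin 2 → Om → ℤ
  X : ℕ
  G : Set Om

attribute [instance] CD.fin

/-- The velocities. -/
def vel : Fin 3 → Fin 2 → ℝ := ![![0, 0], ![1, 0], ![0, 1]]

namespace CD

variable (d : CD)

/-- The first `i` digits of the time. -/
noncomputable def Ti (i : ℕ) (ω : d.Om) : ℤ := ⌊(2 : ℝ) ^ i * d.th ω⌋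

/-- The probability that a second time of the window `i` is near the time of the sample. -/
noncomputable def dead (k' i : ℕ) (ω : d.Om) : ℝ :=
  Pr (cond d.P (fun v => (d.L 0 v, (d.b v, d.Ti i v))) (d.L 0 ω, (d.b ω, d.Ti i ω)))
    {v | |d.th v - d.th ω| < (2 : ℝ) ^ (-((i : ℤ) + k'))}

/-- The basic assumptions. -/
structure OK (s : ℕ) : Prop where
  law : IsLaw d.P
  hab : Det d.P d.a d.b
  hth : Det d.P (fun ω => (d.T ω, d.b ω)) d.th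
  hG : ∀ ω ω', 0 < d.P ω → 0 < d.P ω' → d.a ω = d.a ω' → ω ∈ d.G → ω' ∈ d.G
  h0 : ∀ ω ω', 0 < d.P ω → 0 < d.P ω' → d.L 0 ω = d.L 0 ω' → d.a ω = d.a ω' → ∀ k,
    |(d.N k ω' : ℝ) - d.N k ω| ≤ 4 + 2 ^ d.X * |d.th ω' - d.th ω| / 2 ^ s
  hv : ∀ ω ω', 0 < d.P ω → 0 < d.P ω' → ω ∈ d.G → ∀ j, d.L j ω = d.L j ω' → d.a ω = d.a ω' →
    ∀ k, |((d.N k ω' : ℝ) - d.N k ω) - 2 ^ d.X * ((d.th ω' - d.th ω) * vel j k)| ≤
      4 + 2 ^ d.X * |d.th ω' - d.th ω| / 2 ^ s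

end CD

/-- **Core.** -/
def CoreStmt : Prop :=
  ∀ (k' : ℕ) (c ε : ℝ), 0 < c → 0 < ε → ∃ (δ : ℝ) (s X₀ : ℕ), 0 < δ ∧ ∀ d : CD,
    d.OK s → X₀ ≤ d.X → (∀ j, mi d.P (d.L j) d.T d.a ≤ δ * d.X) →
    mi d.P d.T d.a (fun ω => (d.L 0 ω, d.b ω)) ≤ δ * d.X → ∀ D : ℕ → Set d.Om,
    (∀ i ω, 0 < d.P ω → ω ∉ D i → d.dead k' i ω ≤ 1 - c) →
    (2 - ε - 2 * Pr d.P d.Gᶜ) * d.X * Real.log 2 -
        2 * Real.log 2 * ∑ i ∈ Finset.range d.X, Pr d.P (D i) ≤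
      CH d.P (fun ω => (d.N 0 ω, d.N 1 ω)) (fun ω => (d.T ω, d.a ω))

/-- **Extension.** Three samples, independent given the exact point and time. -/
def ExtStmt : Prop :=
  ∀ A B s : ℕ, ∃ C : ℕ, ∀ (d : KD) (g : ℕ) (δ : ℝ), d.OK A B → 0 ≤ δ → C + 2 * g ≤ d.X →
    Pr d.P (d.flat g δ) ≤ δ → ∃ e : CD, e.OK s ∧ e.X + (C + 2 * g) = d.X ∧
      Pr e.P e.Gᶜ ≤ 3 * δ ∧
      CH e.P (fun ω => (e.N 0 ω, e.N 1 ω)) (fun ω => (e.T ω, e.a ω)) ≤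
        CH d.P (fun ω => (d.N 0 ω, d.N 1 ω)) (fun ω => (d.T ω, d.b ω)) ∧
      (∀ j, mi e.P (e.L j) e.T e.a ≤ mi d.P d.T d.L d.b + 12 * (g + C) * Real.log 2) ∧
      mi e.P e.T e.a (fun ω => (e.L 0 ω, e.b ω)) ≤ 12 * (g + C) * Real.log 2 ∧
      ∀ D : ℕ → Set d.Om, ∃ D' : ℕ → Set e.Om, (∀ i, Pr e.P (D' i) = Pr d.P (D i)) ∧
        ∀ (k' i : ℕ) (c : ℝ), (∀ ω, 0 < d.P ω → ω ∉ D i → d.dead k' i ω ≤ 1 - c) →
          ∀ ω, 0 < e.P ω → ω ∉ D' i → e.dead k' i ω ≤ 1 - c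

/-- **Rows.** A law in the plane, smoothed at the scale `2 ^ κ`, which is nearly invariant under a
translation of the first coordinate, has full rows of the first coordinate, given the second. -/
def FulStmt : Prop :=
  ∃ C₀ : ℝ, 0 ≤ C₀ ∧ ∀ (Ω : Type) [Fintype Ω] (q : Ω → ℝ) (N S : Ω → ℤ) (κ kb K : ℕ) (x : ℤ)
    (e : ℝ), IsLaw q → (2 : ℤ) ^ kb ≤ |x| → |x| ≤ 2 ^ κ → 0 ≤ e → 9 * 4 ^ (κ + K - kb) * e ≤ 1 →
    TIV (smp 2 (2 ^ κ) q) (smX (N := 2 ^ κ) (fun ω => ![N ω, S ω])) (fun _ => ()) ![x, 0] e →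
    K * Real.log 2 - C₀ ≤ CH q (fun ω => N ω / ((2 ^ κ : ℕ) : ℤ))
      (fun ω => (N ω / ((2 ^ (κ + K) : ℕ) : ℤ), S ω / ((2 ^ κ : ℕ) : ℤ)))

end Pool.KS2
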