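import Pool.Agent.H60.KS2.Defs

/-!
# Pairs of times on two lines

Two lines pass through the point of the sample. For pairs of times, the law of the block given the
time and the cell is the same at both times, up to the displacement along the line; hence it is
invariant under the difference of the displacements.
-/

set_option autoImplicit false

namespace Pool.KS2

open Finset Real
open Pool.Agent.H49.Ent Pool.Agent.H32.Dense Pool.STK Pool.KAF Pool.OC Pool.OC.RS Pool.KAL Pool.KX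

section

variable {Ω S T U β γ τ : Type} [Fintype Ω]

theorem cond_eqv {p : Ω → ℝ} (hp : ∀ ω, 0 ≤ p ω) {Y : Ω → S} {Y' : Ω → T} {y : S} {y' : T}
    (h : ∀ v, 0 < p v → (Y v = y ↔ Y' v = y')) : cond p Y y = cond p Y' y' := by
  classical
  have e1 : law p Y y = law p Y' y' := by
    unfold law
    refine Finset.sum_congr rfl fun v _ => ?_
    rcases (hp v).eq_or_lt with h0 | h0
    · rw [← h0]
      simp
    · by_cases c : Y v = y
      · rw [if_pos c, if_pos ((h v h0).1 c)]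
      · rw [if_neg c, if_neg (fun c' => c ((h v h0).2 c'))]
  funext v
  unfold Pool.Agent.H49.Ent.cond
  rw [e1]
  rcases (hp v).eq_or_lt with h0 | h0
  · rw [← h0]
    simp
  · by_cases c : Y v = y
    · rw [if_pos c, if_pos ((h v h0).1 c)]
    · rw [if_neg c, if_neg (fun c' => c ((h v h0).2 c'))]

/-- Average over pairs with the same value of `b`. -/
noncomputable def EE (p : Ω → ℝ) (b : Ω → β) (h : Ω → Ω → ℝ) : ℝ :=
  ∑ ω, p ω * ∑ v, cond p b (b ω) v * h ω v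

theorem EE_swap (p : Ω → ℝ) (b : Ω → β) (h : Ω → Ω → ℝ) :
    EE p b h = EE p b (fun ω v => h v ω) := by
  classical
  have key : ∀ h : Ω → Ω → ℝ, EE p b h =
      ∑ ω, ∑ v, (if b ω = b v then p ω * p v / law p b (b v) * h ω v else 0) := by
    intro h
    unfold EE
    refine Finset.sum_congr rfl fun ω _ => ?_
    rw [Finset.mul_sum]
    refine Finset.sum_congr rfl fun v _ => ?_
    unfold Pool.Agent.H49.Ent.cond
    by_cases hb : b v = b ω
    · rw [if_pos hb, if_pos hb.symm, hb]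
      ring
    · rw [if_neg hb, if_neg (Ne.symm hb)]
      ring
  rw [key, key, Finset.sum_comm]
  refine Finset.sum_congr rfl fun ω _ => Finset.sum_congr rfl fun v _ => ?_
  by_cases hb : b v = b ω
  · rw [if_pos hb, if_pos hb.symm, hb]
    ring
  · rw [if_neg hb, if_neg (Ne.symm hb)]

theorem EE_mono {p : Ω → ℝ} (hp : ∀ ω, 0 ≤ p ω) (b : Ω → β) {h h' : Ω → Ω → ℝ}
    (hh : ∀ ω v, 0 < p ω → 0 < p v → b ω = b v → h ω v ≤ h' ω v) : EE p b h ≤ EE p b h' := by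
  unfold EE
  refine Finset.sum_le_sum fun ω _ => ?_
  rcases (hp ω).eq_or_lt with h0 | h0
  · rw [← h0, zero_mul, zero_mul]
  refine mul_le_mul_of_nonneg_left (Finset.sum_le_sum fun v _ => ?_) h0.le
  rcases (cond_nonneg hp b (b ω) v).eq_or_lt with h1 | h1
  · rw [← h1, zero_mul, zero_mul]
  · obtain ⟨k1, k2⟩ := (cond_pos_iff hp b (b ω) v).1 h1
    exact mul_le_mul_of_nonneg_left (hh ω v h0 k1 k2.symm) h1.le

theorem EE_add (p : Ω → ℝ) (b : Ω → β) (h h' : Ω → Ω → ℝ) :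
    EE p b (fun ω v => h ω v + h' ω v) = EE p b h + EE p b h' := by
  unfold EE
  simp only [mul_add, Finset.sum_add_distrib]

theorem EE_sub (p : Ω → ℝ) (b : Ω → β) (h h' : Ω → Ω → ℝ) :
    EE p b (fun ω v => h ω v - h' ω v) = EE p b h - EE p b h' := by
  unfold EE
  simp only [mul_sub, Finset.sum_sub_distrib]

theorem EE_const {p : Ω → ℝ} (hp : IsLaw p) (b : Ω → β) (r : ℝ) :
    EE p b (fun _ _ => r) = r := by
  unfold EE
  have h1 : ∀ ω, p ω * ∑ v, cond p b (b ω) v * r = p ω * r := by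
    intro ω
    rcases (hp.nonneg ω).eq_or_lt with h0 | h0
    · rw [← h0, zero_mul, zero_mul]
    · rw [← Finset.sum_mul, (isLaw_cond hp b h0).sum_one, one_mul]
  rw [Finset.sum_congr rfl fun ω _ => h1 ω, ← Finset.sum_mul, hp.sum_one, one_mul]

theorem EE_left {p : Ω → ℝ} (hp : IsLaw p) (b : Ω → β) (f : Ω → ℝ) :
    EE p b (fun ω _ => f ω) = ∑ ω, p ω * f ω := by
  unfold EE
  refine Finset.sum_congr rfl fun ω _ => ?_
  rcases (hp.nonneg ω).eq_or_lt with h0 | h0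
  · rw [← h0, zero_mul, zero_mul]
  · rw [← Finset.sum_mul, (isLaw_cond hp b h0).sum_one, one_mul]

theorem EE_le_add {p : Ω → ℝ} (hp : ∀ ω, 0 ≤ p ω) (b : Ω → β) {h h' k : Ω → Ω → ℝ}
    (hh : ∀ ω v, 0 < p ω → 0 < p v → b ω = b v → h ω v ≤ h' ω v + k ω v) :
    EE p b h ≤ EE p b h' + EE p b k := by
  rw [← EE_add]
  exact EE_mono hp b hh

theorem EE_congr {p : Ω → ℝ} (hp : ∀ ω, 0 ≤ p ω) {b : Ω → β} {b' : Ω → γ} (h1 : Det p b b')
    (h2 : Det p b' b) (h : Ω → Ω → ℝ) : EE p b h = EE p b' h := by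
  unfold EE
  refine Finset.sum_congr rfl fun ω _ => ?_
  rcases (hp ω).eq_or_lt with h0 | h0
  · rw [← h0, zero_mul, zero_mul]
  · have e1 : cond p b (b ω) = cond p b' (b' ω) := cond_eqv hp fun v hv =>
      ⟨fun h => h1 v ω hv h0 h, fun h => h2 v ω hv h0 h⟩
    rw [e1]

/-- **A nearly independent label.** -/
theorem EE_switch {p : Ω → ℝ} (hp : IsLaw p) (o : Ω → τ) (c : Ω → T) (g : Ω → S) {a : ℝ}
    (ha : 0 < a) (φ : Ω → τ → ℝ) (hφ0 : ∀ ω s, 0 ≤ φ ω s) (hφ1 : ∀ ω s, φ ω s ≤ 1) :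
    |EE p g (fun ω v => φ ω (o v)) - EE p (fun ω => (c ω, g ω)) (fun ω v => φ ω (o v))| ≤
      a + mi p o c g / a := by
  classical
  have key : ∀ φ : Ω → τ → ℝ, (∀ ω s, 0 ≤ φ ω s) → (∀ ω s, φ ω s ≤ 1) →
      EE p g (fun ω v => φ ω (o v)) ≤
        EE p (fun ω => (c ω, g ω)) (fun ω v => φ ω (o v)) + (a + mi p o c g / a) := by
    intro φ h0 h1
    have h2 := switch hp o c g (univ.image o) (fun ω _ => Finset.mem_image_of_mem _ (mem_univ _))
      ha (fun _ => 1) φ (fun _ => zero_le_one) (fun _ => le_rfl) h0 h1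
    simp only [one_mul] at h2
    exact h2
  have k1 := key φ hφ0 hφ1
  have k2 := key (fun ω s => 1 - φ ω s) (fun ω s => sub_nonneg.mpr (hφ1 ω s))
    (fun ω s => sub_le_self _ (hφ0 ω s))
  have e1 := EE_sub p g (fun _ _ => 1) (fun ω v => φ ω (o v))
  have e2 := EE_sub p (fun ω => (c ω, g ω)) (fun _ _ => 1) (fun ω v => φ ω (o v))
  rw [EE_const hp] at e1 e2
  rw [abs_le]
  constructor
  · beta_reduce at k2
    linarith
  · linarith

/-- The value of `avg` does not change much under a short displacement. -/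
theorem avg_near {M : ℕ} (hM : 0 < M) (E : Set (Fin 2 → ℤ)) (y y' : Fin 2 → ℤ) {R : ℝ}
    (h : ∀ k, |((y' k - y k : ℤ) : ℝ)| ≤ R) :
    |TI.avg 2 M E y' - TI.avg 2 M E y| ≤ 2 * R / M := by
  have h1 := TI.avg_shift hM E y (y' - y) R (fun k => h k)
  rw [add_sub_cancel] at h1
  exact_mod_cast h1

open Classical in
/-- Indicator. -/
noncomputable def ii (q : Prop) : ℝ := if q then 1 else 0

theorem ii_pos {q : Prop} (h : q) : ii q = 1 := if_pos h

theorem ii_neg {q : Prop} (h : ¬ q) : ii q = 0 := if_neg h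

theorem ii_nonneg (q : Prop) : 0 ≤ ii q := by
  unfold ii
  split_ifs <;> norm_num

theorem ii_le_one (q : Prop) : ii q ≤ 1 := by
  unfold ii
  split_ifs <;> norm_num

open Classical in
/-- Different cells. -/
noncomputable def crs {γ : Type} (G : Set Ω) (C : Ω → γ) (ω v : Ω) : ℝ :=
  if ω ∈ G ∧ C ω ≠ C v then 1 else 0

/-- One line. -/
theorem blk_one {W Λ : Type} {p : Ω → ℝ} (hp : IsLaw p) (w : Ω → W) (t : Ω → τ) (C : Ω → γ)
    (Y : Ω → Fin 2 → ℤ) (L : Ω → Λ) {M : ℕ} (hM : 0 < M) {R cr a₀ : ℝ} (ha₀ : 0 < a₀) (hR : 0 ≤ R)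
    (x : τ → τ → Fin 2 → ℤ) (G : Set Ω)
    (h1 : ∀ ω ω', 0 < p ω → 0 < p ω' → ω ∈ G → L ω = L ω' → w ω = w ω' →
      ∀ k, |((Y ω' k - (Y ω k + x (t ω) (t ω') k) : ℤ) : ℝ)| ≤ R)
    (hc : EE p (fun ω => (L ω, w ω)) (crs G C) ≤ cr)
    (F : τ → τ → γ → Set (Fin 2 → ℤ))
    (hF : ∀ ω t' c, 0 < p ω → (F (t ω) t' c).Nonempty → ω ∈ G) :
    |EE p w (fun ω v => TI.avg 2 M (F (t ω) (t v) (C ω)) (Y ω + x (t ω) (t v))) -
      EE p w (fun ω v => TI.avg 2 M (F (t v) (t ω) (C ω)) (Y ω))| ≤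
      2 * (a₀ + mi p t L w / a₀) + cr + 2 * R / M := by
  classical
  have hp0 := hp.nonneg
  set b : Ω → Λ × W := fun ω => (L ω, w ω) with hb
  -- three averages over the pairs with the same line
  set hA : Ω → Ω → ℝ := fun ω v => TI.avg 2 M (F (t ω) (t v) (C ω)) (Y ω + x (t ω) (t v)) with hhA
  set hB : Ω → Ω → ℝ := fun ω v => TI.avg 2 M (F (t ω) (t v) (C ω)) (Y v) with hhB
  set hC : Ω → Ω → ℝ := fun ω v => TI.avg 2 M (F (t ω) (t v) (C v)) (Y v) with hhC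
  set hD : Ω → Ω → ℝ := fun ω v => TI.avg 2 M (F (t v) (t ω) (C ω)) (Y ω) with hhD
  have s1 : |EE p w hA - EE p b hA| ≤ a₀ + mi p t L w / a₀ :=
    EE_switch hp t L w ha₀ (fun ω s => TI.avg 2 M (F (t ω) s (C ω)) (Y ω + x (t ω) s))
      (fun _ _ => TI.avg_nonneg _ _) (fun _ _ => TI.avg_le_one hM _ _)
  have s4 : |EE p w hD - EE p b hD| ≤ a₀ + mi p t L w / a₀ :=
    EE_switch hp t L w ha₀ (fun ω s => TI.avg 2 M (F s (t ω) (C ω)) (Y ω))
      (fun _ _ => TI.avg_nonneg _ _) (fun _ _ => TI.avg_le_one hM _ _)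
  have hRM : 0 ≤ 2 * R / M := by positivity
  have s2 : |EE p b hA - EE p b hB| ≤ 2 * R / M := by
    have k : ∀ ω v, 0 < p ω → 0 < p v → b ω = b v → |hA ω v - hB ω v| ≤ 2 * R / M := by
      intro ω v hω hv hbv
      have hbv' := Prod.ext_iff.mp hbv
      by_cases hG : ω ∈ G
      · rw [abs_sub_comm]
        exact avg_near hM _ _ _ (h1 ω v hω hv hG hbv'.1 hbv'.2)
      · have hE : F (t ω) (t v) (C ω) = ∅ := by
          by_contra hne
          exact hG (hF ω (t v) (C ω) hω (Set.nonempty_iff_ne_empty.mpr hne))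
        have e : ∀ y, TI.avg 2 M (∅ : Set (Fin 2 → ℤ)) y = 0 := by
          intro y
          unfold TI.avg
          simp
        simp only [hhA, hhB, hE, e, sub_self, abs_zero]
        exact hRM
    have k1 := EE_le_add hp0 b (h := hA) (h' := hB) (k := fun _ _ => 2 * R / M)
      (fun ω v a1 a2 a3 => by
        have := (abs_le.mp (k ω v a1 a2 a3)).2
        linarith)
    have k2 := EE_le_add hp0 b (h := hB) (h' := hA) (k := fun _ _ => 2 * R / M)
      (fun ω v a1 a2 a3 => by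
        have := (abs_le.mp (k ω v a1 a2 a3)).1
        linarith)
    rw [EE_const hp] at k1 k2
    rw [abs_le]
    constructor <;> linarith
  have s3 : |EE p b hB - EE p b hC| ≤ cr := by
    have k : ∀ ω v, 0 < p ω → |hB ω v - hC ω v| ≤ crs G C ω v := by
      intro ω v hω
      unfold crs
      by_cases hcc : C ω = C v
      · rw [if_neg (fun h => h.2 hcc)]
        simp only [hhB, hhC, hcc, sub_self, abs_zero, le_refl]
      · by_cases hG : ω ∈ G
        · rw [if_pos ⟨hG, hcc⟩, abs_le]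
          have a1 := TI.avg_nonneg (N := M) (F (t ω) (t v) (C ω)) (Y v)
          have a2 := TI.avg_le_one hM (F (t ω) (t v) (C ω)) (Y v)
          have a3 := TI.avg_nonneg (N := M) (F (t ω) (t v) (C v)) (Y v)
          have a4 := TI.avg_le_one hM (F (t ω) (t v) (C v)) (Y v)
          constructor <;> simp only [hhB, hhC] <;> linarith
        · have hE : ∀ c, F (t ω) (t v) c = ∅ := by
            intro c
            by_contra hne
            exact hG (hF ω (t v) c hω (Set.nonempty_iff_ne_empty.mpr hne))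
          rw [if_neg (fun h => hG h.1)]
          simp only [hhB, hhC, hE, sub_self, abs_zero, le_refl]
    have k1 := EE_le_add hp0 b (h := hB) (h' := hC)
      (k := crs G C)
      (fun ω v a1 _ _ => by
        have := (abs_le.mp (k ω v a1)).2
        linarith)
    have k2 := EE_le_add hp0 b (h := hC) (h' := hB)
      (k := crs G C)
      (fun ω v a1 _ _ => by
        have := (abs_le.mp (k ω v a1)).1
        linarith)
    rw [abs_le]
    constructor <;> linarith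
  have s5 : EE p b hC = EE p b hD := EE_swap p b hC
  have t1 := abs_le.mp s1
  have t2 := abs_le.mp s2
  have t3 := abs_le.mp s3
  have t4 := abs_le.mp s4
  rw [abs_le]
  constructor <;> linarith

theorem avg_compl {M : ℕ} (hM : 0 < M) (E : Set (Fin 2 → ℤ)) (y : Fin 2 → ℤ) :
    TI.avg 2 M Eᶜ y = 1 - TI.avg 2 M E y := by
  classical
  unfold TI.avg
  have h := Finset.card_filter_add_card_filter_not (s := (univ : Finset (Fin 2 → Fin M)))
    (fun τ => (fun i => y i + ((τ i : ℕ) : ℤ)) ∈ E)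
  rw [card_univ, Fintype.card_fun, Fintype.card_fin, Fintype.card_fin] at h
  have h' : ((univ.filter fun τ : Fin 2 → Fin M => (fun i => y i + ((τ i : ℕ) : ℤ)) ∈ E).card : ℝ) +
      ((univ.filter fun τ : Fin 2 → Fin M => ¬ (fun i => y i + ((τ i : ℕ) : ℤ)) ∈ E).card : ℝ) =
      (M : ℝ) ^ 2 := by exact_mod_cast h
  have hM0 : (0 : ℝ) < (M : ℝ) ^ 2 := by positivity
  rw [eq_sub_iff_add_eq, ← add_div, div_eq_one_iff_eq hM0.ne', ← h', add_comm]
  congr! 2
  refine congrArg Finset.card ?_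
  ext τ
  simp only [Finset.mem_filter, Set.mem_compl_iff]

/-- A law which is not invariant under a translation. -/
theorem not_tiv {M : ℕ} (hM : 0 < M) {q : Ω → ℝ} {Y : Ω → Fin 2 → ℤ} {x : Fin 2 → ℤ} {e : ℝ}
    (h : ¬ TIV (smp 2 M q) (smX (N := M) Y) (fun _ => ()) x e) :
    ∃ E : Set (Fin 2 → ℤ), e < ∑ ω, q ω * TI.avg 2 M E (Y ω) -
      ∑ ω, q ω * TI.avg 2 M E (Y ω + x) := by
  classical
  unfold TIV at h
  push Not at h
  obtain ⟨E', hE'⟩ := h
  set E : Set (Fin 2 → ℤ) := {y | (y, ()) ∈ E'} with hE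
  have e1 : Pr (smp 2 M q) {w | (smX (N := M) Y w, ()) ∈ E'} =
      ∑ ω, q ω * TI.avg 2 M E (Y ω) := TI.Pr_smp q Y (fun _ => E)
  have e2 : Pr (smp 2 M q) {w | (smX (N := M) Y w + x, ()) ∈ E'} =
      ∑ ω, q ω * TI.avg 2 M E (Y ω + x) := by
    rw [← TI.Pr_smp q (fun ω => Y ω + x) (fun _ => E)]
    refine TI.Pr_congr _ fun w => ?_
    have e3 : smX (N := M) Y w + x = smX (N := M) (fun ω => Y ω + x) w := by
      funext i
      simp only [smX, Pi.add_apply]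
      ring
    show (smX (N := M) Y w + x, ()) ∈ E' ↔ (smX (N := M) (fun ω => Y ω + x) w, ()) ∈ E'
    rw [e3]
  rw [e1, e2] at hE'
  rcases lt_abs.mp hE' with h1 | h1
  · exact ⟨E, h1⟩
  · refine ⟨Eᶜ, ?_⟩
    simp only [avg_compl hM, mul_sub, mul_one, Finset.sum_sub_distrib]
    linarith

/-- The samples at which the law of the block is not invariant under the displacement, whatever
the second time. -/
def bad {γ : Type} (p : Ω → ℝ) (t : Ω → τ) (C : Ω → γ) (Y : Ω → Fin 2 → ℤ) (M : ℕ)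
    (x : τ → τ → Fin 2 → ℤ) (G : Set Ω) (lv : τ → τ → Prop) (e : ℝ) : Set Ω :=
  {ω | ω ∈ G ∧ ∀ s, lv (t ω) s →
    ¬ TIV (smp 2 M (cond p (fun v => (t v, C v)) (t ω, C ω))) (smX (N := M) Y) (fun _ => ())
      (x (t ω) s) e}

open Classical in
/-- **Two lines.** -/
theorem blk_two {W Λ : Type} {p : Ω → ℝ} (hp : IsLaw p) (w : Ω → W) (t : Ω → τ) (C : Ω → γ)
    (Y : Ω → Fin 2 → ℤ) (L₁ L₂ : Ω → Λ) {M : ℕ} (hM : 0 < M) {R cr a₀ i₀ e : ℝ} (ha₀ : 0 < a₀)
    (hR : 0 ≤ R) (he : 0 < e) (x : τ → τ → Fin 2 → ℤ) (G : Set Ω) (lv : τ → τ → Prop)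
    (hwt : Det p t w) (hG : ∀ ω ω', 0 < p ω → 0 < p ω' → w ω = w ω' → ω ∈ G → ω' ∈ G)
    (h1 : ∀ ω ω', 0 < p ω → 0 < p ω' → ω ∈ G → L₁ ω = L₁ ω' → w ω = w ω' →
      ∀ k, |((Y ω' k - Y ω k : ℤ) : ℝ)| ≤ R)
    (h2 : ∀ ω ω', 0 < p ω → 0 < p ω' → ω ∈ G → L₂ ω = L₂ ω' → w ω = w ω' →
      ∀ k, |((Y ω' k - (Y ω k + x (t ω) (t ω') k) : ℤ) : ℝ)| ≤ R)
    (hc1 : EE p (fun ω => (L₁ ω, w ω)) (crs G C) ≤ cr)
    (hc2 : EE p (fun ω => (L₂ ω, w ω)) (crs G C) ≤ cr)
    (hi1 : mi p t L₁ w ≤ i₀) (hi2 : mi p t L₂ w ≤ i₀) :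
    e * EE p w (fun ω v => ii (ω ∈ bad p t C Y M x G lv e ∧ lv (t ω) (t v))) ≤
      2 * (2 * (a₀ + i₀ / a₀) + cr + 2 * R / M) := by
  have hp0 := hp.nonneg
  set V : Ω → τ × γ := fun v => (t v, C v) with hV
  set B : Set Ω := bad p t C Y M x G lv e with hB
  -- the events
  have hex : ∀ (t₁ s : τ) (c : γ), ((∃ ω, 0 < p ω ∧ t ω = t₁ ∧ C ω = c ∧ ω ∈ B) ∧ lv t₁ s) →
      ∃ E : Set (Fin 2 → ℤ), e < ∑ ω, cond p V (t₁, c) ω * TI.avg 2 M E (Y ω) -
        ∑ ω, cond p V (t₁, c) ω * TI.avg 2 M E (Y ω + x t₁ s) := by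
    rintro t₁ s c ⟨⟨ω, _, rfl, rfl, hω⟩, hlv⟩
    exact not_tiv hM (hω.2 s hlv)
  choose! E hE using hex
  set F : τ → τ → γ → Set (Fin 2 → ℤ) := fun t₁ s c =>
    if (∃ ω, 0 < p ω ∧ t ω = t₁ ∧ C ω = c ∧ ω ∈ B) ∧ lv t₁ s then E t₁ s c else ∅ with hF
  have hFG : ∀ ω s c, 0 < p ω → (F (t ω) s c).Nonempty → ω ∈ G := by
    intro ω s c hω hne
    by_cases h : (∃ ω', 0 < p ω' ∧ t ω' = t ω ∧ C ω' = c ∧ ω' ∈ B) ∧ lv (t ω) s
    · obtain ⟨⟨ω', k1, k2, _, k4⟩, _⟩ := h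
      exact hG ω' ω k1 hω (hwt ω' ω k1 hω k2) k4.1
    · simp only [hF, if_neg h, Set.not_nonempty_empty] at hne
  -- the upper bound
  have u1 := blk_one hp w t C Y L₁ hM ha₀ hR (fun _ _ => 0) G (fun ω ω' a1 a2 a3 a4 a5 k => by
    have := h1 ω ω' a1 a2 a3 a4 a5 k
    simpa using this) hc1 F hFG
  have u2 := blk_one hp w t C Y L₂ hM ha₀ hR x G h2 hc2 F hFG
  have e0 : ∀ y : Fin 2 → ℤ, y + 0 = y := fun y => add_zero y
  simp only [e0] at u1
  have m1 : a₀ + mi p t L₁ w / a₀ ≤ a₀ + i₀ / a₀ := by gcongr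
  have m2 : a₀ + mi p t L₂ w / a₀ ≤ a₀ + i₀ / a₀ := by gcongr
  have upp : EE p w (fun ω v => TI.avg 2 M (F (t ω) (t v) (C ω)) (Y ω)) -
      EE p w (fun ω v => TI.avg 2 M (F (t ω) (t v) (C ω)) (Y ω + x (t ω) (t v))) ≤
      2 * (2 * (a₀ + i₀ / a₀) + cr + 2 * R / M) := by
    have k1 := (abs_le.mp u1).2
    have k2 := (abs_le.mp u2).1
    linarith
  refine le_trans ?_ upp
  -- the lower bound
  rw [← EE_sub]
  unfold EE
  rw [Finset.mul_sum]
  set f : Ω → ℝ := fun ω => ∑ v, cond p w (w ω) v *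
    (TI.avg 2 M (F (t ω) (t v) (C ω)) (Y ω) -
      TI.avg 2 M (F (t ω) (t v) (C ω)) (Y ω + x (t ω) (t v))) with hf
  show _ ≤ ∑ ω, p ω * f ω
  rw [← tower hp0 V f]
  refine Finset.sum_le_sum fun ω _ => ?_
  rcases (hp0 ω).eq_or_lt with hω | hω
  · rw [← hω]
    simp
  have e1 : e * (p ω * ∑ v, cond p w (w ω) v *
      ii (ω ∈ B ∧ lv (t ω) (t v))) = p ω * ∑ v, cond p w (w ω) v *
        (e * ii (ω ∈ B ∧ lv (t ω) (t v))) := by
    rw [Finset.mul_sum, Finset.mul_sum, Finset.mul_sum]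
    exact Finset.sum_congr rfl fun v _ => by ring
  rw [e1]
  refine mul_le_mul_of_nonneg_left ?_ hω.le
  have e2 : ∑ u, cond p V (V ω) u * f u = ∑ v, cond p w (w ω) v *
      (∑ u, cond p V (V ω) u * TI.avg 2 M (F (t ω) (t v) (C ω)) (Y u) -
        ∑ u, cond p V (V ω) u * TI.avg 2 M (F (t ω) (t v) (C ω)) (Y u + x (t ω) (t v))) := by
    have e3 : ∀ u, cond p V (V ω) u * f u = ∑ v, cond p w (w ω) v *
        (cond p V (V ω) u * TI.avg 2 M (F (t ω) (t v) (C ω)) (Y u) -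
        cond p V (V ω) u * TI.avg 2 M (F (t ω) (t v) (C ω)) (Y u + x (t ω) (t v))) := by
      intro u
      rcases (cond_nonneg hp0 V (V ω) u).eq_or_lt with hu | hu
      · rw [← hu]
        simp
      · obtain ⟨k1, k2⟩ := (cond_pos_iff hp0 V (V ω) u).1 hu
        have k3 : t u = t ω := (Prod.ext_iff.mp k2).1
        have k4 : C u = C ω := (Prod.ext_iff.mp k2).2
        have k5 : w u = w ω := hwt u ω k1 hω k3
        simp only [hf, k3, k4, k5]
        rw [Finset.mul_sum]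
        exact Finset.sum_congr rfl fun v _ => by ring
    rw [Finset.sum_congr rfl fun u _ => e3 u, Finset.sum_comm]
    refine Finset.sum_congr rfl fun v _ => ?_
    rw [← Finset.mul_sum, Finset.sum_sub_distrib]
  rw [e2]
  refine Finset.sum_le_sum fun v _ => mul_le_mul_of_nonneg_left ?_ (cond_nonneg hp0 _ _ _)
  by_cases hcnd : (∃ ω', 0 < p ω' ∧ t ω' = t ω ∧ C ω' = C ω ∧ ω' ∈ B) ∧ lv (t ω) (t v)
  · have k := hE (t ω) (t v) (C ω) hcnd
    have eF : F (t ω) (t v) (C ω) = E (t ω) (t v) (C ω) := by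
      simp only [hF, if_pos hcnd]
    rw [eF]
    have k' : e < ∑ u, cond p V (V ω) u * TI.avg 2 M (E (t ω) (t v) (C ω)) (Y u) -
        ∑ u, cond p V (V ω) u * TI.avg 2 M (E (t ω) (t v) (C ω)) (Y u + x (t ω) (t v)) := k
    have k2 := mul_le_mul_of_nonneg_left (ii_le_one (ω ∈ B ∧ lv (t ω) (t v))) he.le
    linarith
  · have eF : F (t ω) (t v) (C ω) = ∅ := by
      simp only [hF, if_neg hcnd]
    have eA : ∀ y, TI.avg 2 M (∅ : Set (Fin 2 → ℤ)) y = 0 := by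
      intro y
      unfold TI.avg
      simp
    rw [eF]
    simp only [eA, mul_zero, Finset.sum_const_zero, sub_self]
    rw [ii_neg (fun h => hcnd ⟨⟨ω, hω, rfl, rfl, h.1⟩, h.2⟩), mul_zero]

open Classical in
/-- **Live windows.** -/
theorem blk_live {W Λ Γ ζ : Type} {p : Ω → ℝ} (hp : IsLaw p) (w : Ω → W) (t : Ω → τ) (L : Ω → Λ)
    (a' : Ω → Γ) (Z : Ω → ζ) {a₀ i₀ i₁ c : ℝ} (ha₀ : 0 < a₀) (hc : 0 ≤ c) (lv : τ → τ → Prop)
    (B D : Set Ω) (hd1 : Det p (fun ω => (L ω, w ω)) (fun ω => (a' ω, Z ω)))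
    (hd2 : Det p (fun ω => (a' ω, Z ω)) (fun ω => (L ω, w ω)))
    (hi : mi p t L w ≤ i₀) (hi' : mi p t a' Z ≤ i₁)
    (hD : ∀ ω, 0 < p ω → ω ∉ D → c ≤ ∑ v, cond p Z (Z ω) v * ii (lv (t ω) (t v))) :
    c * (Pr p B - Pr p D) ≤
      EE p w (fun ω v => ii (ω ∈ B ∧ lv (t ω) (t v))) + (a₀ + i₀ / a₀) +
        (a₀ + i₁ / a₀) := by
  have hp0 := hp.nonneg
  set φ : Ω → τ → ℝ := fun ω s => ii (ω ∈ B ∧ lv (t ω) s) with hφ
  have φ0 : ∀ ω s, 0 ≤ φ ω s := fun ω s => ii_nonneg _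
  have φ1 : ∀ ω s, φ ω s ≤ 1 := fun ω s => ii_le_one _
  have s1 := (abs_le.mp (EE_switch hp t L w ha₀ φ φ0 φ1)).1
  have s2 := (abs_le.mp (EE_switch hp t a' Z ha₀ φ φ0 φ1)).2
  have s3 := EE_congr hp0 hd1 hd2 (fun ω v => φ ω (t v))
  have m1 : a₀ + mi p t L w / a₀ ≤ a₀ + i₀ / a₀ := by gcongr
  have m2 : a₀ + mi p t a' Z / a₀ ≤ a₀ + i₁ / a₀ := by gcongr
  have low : c * (Pr p B - Pr p D) ≤ EE p Z (fun ω v => φ ω (t v)) := by
    rw [Pool.KAF.Pr_eq, Pool.KAF.Pr_eq, ← Finset.sum_sub_distrib, Finset.mul_sum]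
    unfold EE
    refine Finset.sum_le_sum fun ω _ => ?_
    rcases (hp0 ω).eq_or_lt with hω | hω
    · rw [← hω]
      simp
    have nn : 0 ≤ p ω * ∑ v, cond p Z (Z ω) v * φ ω (t v) :=
      mul_nonneg hω.le (Finset.sum_nonneg fun v _ => mul_nonneg (cond_nonneg hp0 _ _ _) (φ0 _ _))
    by_cases hB : ω ∈ B
    · by_cases hDω : ω ∈ D
      · rw [if_pos hB, if_pos hDω, sub_self, mul_zero]
        exact nn
      · rw [if_pos hB, if_neg hDω, sub_zero, mul_comm]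
        refine mul_le_mul_of_nonneg_left ?_ hω.le
        refine (hD ω hω hDω).trans (le_of_eq ?_)
        refine Finset.sum_congr rfl fun v _ => ?_
        simp only [hφ, hB, true_and]
    · rw [if_neg hB]
      refine le_trans ?_ nn
      split_ifs
      · have : 0 ≤ c * p ω := mul_nonneg hc hω.le
        linarith
      · simp
  linarith

end

end Pool.KS2
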