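import Pool.Agent.H60.KS2.Stm2

/-!
# The sum over the levels
-/

set_option autoImplicit false

namespace Pool.KS2

open Finset Real
open Pool.Agent.H49.Ent Pool.Agent.H32.Dense Pool.STK Pool.KAF Pool.OC Pool.OC.RS Pool.KAL Pool.KX

section gen

variable {Ω S T U Λ Γ : Type} [Fintype Ω]

/-- A further time in the context. -/
theorem drop1 {p : Ω → ℝ} (hp : ∀ ω, 0 ≤ p ω) (Y : Ω → S) (t : Ω → T) (t' : Ω → U) (L : Ω → Λ)
    {R : ℝ} (hL : CH p Y (fun ω => (L ω, t ω)) ≤ R) :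
    CH p Y t ≤ CH p Y t' + mi p t' L t + R := by
  have h1 := mi_eq hp Y t' t
  have h2 : CH p Y (fun ω => (t' ω, t ω)) ≤ CH p Y t' :=
    CH_mono_cond hp (fun ω ω' _ _ h => (Prod.ext_iff.mp h).1)
  have h3 := mi_comm hp Y t' t
  have h4 := mi_mono hp t' (fun ω => (L ω, Y ω)) Y t
    (fun ω ω' _ _ h => (Prod.ext_iff.mp (Prod.ext_iff.mp h).1).2)
  have h5 := mi_chain hp t' L Y t
  have h6 := mi_eq' hp t' Y (fun ω => (L ω, t ω))
  have h7 := CH_nonneg hp Y (fun ω => (t' ω, (L ω, t ω)))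
  linarith

/-- The chain of the rows. -/
theorem chain {p : Ω → ℝ} (hp : ∀ ω, 0 ≤ p ω) (Y : ℕ → Ω → S) (t : ℕ → Ω → T) (L : Ω → Λ)
    {R : ℝ} (n : ℕ) (hY : ∀ j < n, Det p (Y (j + 1)) (Y j))
    (hL : ∀ j < n, CH p (Y j) (fun ω => (L ω, t j ω)) ≤ R) :
    ∑ j ∈ range n, CH p (Y (j + 1)) (fun ω => (Y j ω, t (j + 1) ω)) ≤
      CH p (Y n) (t n) + ∑ j ∈ range n, mi p (t (j + 1)) L (t j) + n * R := by
  induction n with
  | zero =>
    have := CH_nonneg hp (Y 0) (t 0)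
    simpa using this
  | succ n ih =>
    have ih' := ih (fun j hj => hY j (by omega)) (fun j hj => hL j (by omega))
    rw [sum_range_succ, sum_range_succ]
    have h1 := drop1 hp (Y n) (t n) (t (n + 1)) L (hL n (by omega))
    have h2 : CH p (Y n) (t (n + 1)) + CH p (Y (n + 1)) (fun ω => (Y n ω, t (n + 1) ω)) ≤
        CH p (Y (n + 1)) (t (n + 1)) := by
      rw [← CH_chain hp (Y (n + 1)) (Y n) (t (n + 1))]
      exact CH_mono_left hp (fun ω ω' a b h => Prod.ext (Prod.ext_iff.mp h).1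
        (hY n (by omega) ω ω' a b (Prod.ext_iff.mp h).1))
    push_cast
    linarith

/-- The informations of the chain. -/
theorem tsum {p : Ω → ℝ} (hp : ∀ ω, 0 ≤ p ω) (a : ℕ → Ω → S) (T' : Ω → U) (L : Ω → Λ) (τ : Ω → Γ)
    (n : ℕ) (ha : ∀ i, Det p (fun ω => (a (i + 1) ω, τ ω)) (a i))
    (hT : Det p (fun ω => (T' ω, τ ω)) (a n)) :
    ∑ j ∈ range n, mi p (fun ω => (a (j + 1) ω, τ ω)) L (fun ω => (a j ω, τ ω)) +
      mi p (fun ω => (T' ω, τ ω)) L (fun ω => (a n ω, τ ω)) ≤ mi p T' L τ := by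
  have h1 := mi_sum_one hp a L τ ha n
  have h2 : ∑ j ∈ range n, mi p (fun ω => (a (j + 1) ω, τ ω)) L (fun ω => (a j ω, τ ω)) ≤
      ∑ j ∈ range n, mi p (a (j + 1)) L (fun ω => (a j ω, τ ω)) :=
    Finset.sum_le_sum fun j _ => mi_mono_left hp (a (j + 1)) _ L _ (fun ω ω' _ _ h => by
      have h' := Prod.ext_iff.mp h
      exact Prod.ext h'.1 (Prod.ext_iff.mp h'.2).2)
  have h3 : mi p (fun ω => (T' ω, τ ω)) L (fun ω => (a n ω, τ ω)) ≤
      mi p T' L (fun ω => (a n ω, τ ω)) := mi_mono_left hp T' _ L _ (fun ω ω' _ _ h => by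
      have h' := Prod.ext_iff.mp h
      exact Prod.ext h'.1 (Prod.ext_iff.mp h'.2).2)
  have h4 := mi_chain hp L (a n) T' τ
  have h5 := mi_mono hp L T' (fun ω => (a n ω, T' ω)) τ (fun ω ω' x y h =>
    Prod.ext (hT ω ω' x y h) (Prod.ext_iff.mp h).1)
  have h6 := mi_comm hp L (a n) τ
  have h7 := mi_comm hp L T' (fun ω => (a n ω, τ ω))
  have h8 := mi_comm hp L T' τ
  linarith

omit [Fintype Ω] in
theorem tl_down (th : Ω → ℝ) (r m : ℕ) (ω : Ω) :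
    tl th r ω = tl th (r + m) ω / ((2 ^ m : ℕ) : ℤ) := by
  unfold tl
  have h := Int.floor_div_natCast ((2 : ℝ) ^ (r + m) * th ω) (2 ^ m)
  rw [← h]
  congr 1
  push_cast
  rw [pow_add]
  field_simp

/-- The informations of the windows. -/
theorem budget {p : Ω → ℝ} (hp : ∀ ω, 0 ≤ p ω) (th : Ω → ℝ) (L : Ω → Λ) (τ : Ω → Γ) (T' : Ω → U)
    (hT : ∀ r, Det p (fun ω => (T' ω, τ ω)) (tl th r)) {B : ℝ} (hB : mi p T' L τ ≤ B) {Q : ℕ}
    (hQ : 0 < Q) (X : ℕ) :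
    ∑ ℓ ∈ range X, mi p (tl th (ℓ + Q)) L (fun ω => (tl th ℓ ω, τ ω)) ≤ Q * B := by
  refine sum_classes (fun ℓ => mi p (tl th (ℓ + Q)) L (fun ω => (tl th ℓ ω, τ ω)))
    (fun ℓ => mi_nonneg hp _ _ _) hQ X B fun j _ m _ => ?_
  have h1 := mi_sum_one hp (fun i => tl th (j + i * Q)) L τ (fun i ω ω' _ _ h => by
    have h' := (Prod.ext_iff.mp h).1
    have e : j + (i + 1) * Q = (j + i * Q) + Q := by ring
    show tl th (j + i * Q) ω = tl th (j + i * Q) ω'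
    rw [tl_down th (j + i * Q) Q ω, tl_down th (j + i * Q) Q ω']
    rw [← e]
    exact congrArg (· / ((2 ^ Q : ℕ) : ℤ)) h') m
  have h2 : ∑ i ∈ range m, mi p (tl th (j + i * Q + Q)) L (fun ω => (tl th (j + i * Q) ω, τ ω)) =
      ∑ i ∈ range m, mi p (tl th (j + (i + 1) * Q)) L (fun ω => (tl th (j + i * Q) ω, τ ω)) :=
    Finset.sum_congr rfl fun i _ => by
      have e : j + i * Q + Q = j + (i + 1) * Q := by ring
      rw [e]
  have h3 := mi_mono_left hp T' (tl th (j + m * Q)) L τ (hT _)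
  show ∑ i ∈ range m, mi p (tl th (j + i * Q + Q)) L (fun ω => (tl th (j + i * Q) ω, τ ω)) ≤ B
  rw [h2]
  linarith

/-- A double sum. -/
theorem dsum (g : ℕ → ℝ) (K n : ℕ) :
    ∑ r ∈ range K, ∑ j ∈ range n, g (r + j * K) = ∑ i ∈ range (n * K), g i := by
  induction n with
  | zero => simp
  | succ n ih =>
    rw [Nat.succ_mul, Finset.sum_range_add, ← ih]
    rw [← Finset.sum_add_distrib]
    refine Finset.sum_congr rfl fun r _ => ?_
    rw [sum_range_succ]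
    congr 2
    ring

end gen

/-! ### The rows of the two coordinates -/

namespace CD

variable (d : CD)

/-- The rows `r` of the shifted position. -/
noncomputable def row (u : ℤ) (r : ℕ) (ω : d.Om) : ℤ × ℤ :=
  (rr d.X r (fun ω => d.N 0 ω + u) ω, rr d.X r (fun ω => d.N 1 ω + u) ω)

/-- The time of a level, with the context. -/
noncomputable def tim (K ℓ : ℕ) (ω : d.Om) : ℤ × d.Gam := (tl d.th (ℓ + 7 * K) ω, d.a ω)

/-- The informations of the lines. -/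
noncomputable def i0 (K ℓ : ℕ) : ℝ :=
  ∑ j : Fin 3, mi d.P (tl d.th (ℓ + 7 * K)) (d.L j) (fun ω => (tl d.th ℓ ω, d.a ω))

/-- The informations of the context. -/
noncomputable def i1 (K ℓ : ℕ) : ℝ :=
  mi d.P (tl d.th (ℓ + 7 * K)) d.a (fun ω => (tl d.th ℓ ω, (d.L 0 ω, d.b ω)))

/-- The pairs with different cells. -/
noncomputable def cr (K : ℕ) (u : ℤ) (ℓ : ℕ) : ℝ :=
  ∑ j : Fin 3, EE d.P (fun ω => (d.L j ω, (tl d.th ℓ ω, d.a ω))) (crs d.G (d.row u (ℓ - 6 * K)))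

/-- The error of a level. -/
noncomputable def er (K k' : ℕ) (u : ℤ) (a₀ c : ℝ) (ℓ : ℕ) : ℝ :=
  (2 * (2 * (a₀ + d.i0 K ℓ / a₀) + d.cr K u ℓ + 2 * 8 / 2 ^ (6 * K)) * (9 * 4 ^ (K + k')) +
    (a₀ + d.i0 K ℓ / a₀) + (a₀ + d.i1 K ℓ / a₀)) / c

variable {d}

theorem OK.hthr {s : ℕ} (h : d.OK s) (r : ℕ) : Det d.P (fun ω => (d.T ω, d.b ω)) (tl d.th r) :=
  fun ω ω' a b hh => by
    have := h.hth ω ω' a b hh
    unfold tl
    rw [this]

theorem EE_nonneg {Ω τ : Type} [Fintype Ω] {p : Ω → ℝ} (hp : ∀ ω, 0 ≤ p ω) (w : Ω → τ)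
    {h : Ω → Ω → ℝ} (hh : ∀ ω v, 0 ≤ h ω v) : 0 ≤ EE p w h := by
  unfold EE
  exact Finset.sum_nonneg fun ω _ => mul_nonneg (hp ω)
    (Finset.sum_nonneg fun v _ => mul_nonneg (cond_nonneg hp _ _ _) (hh _ _))

theorem crs_nonneg {Ω γ : Type} (G : Set Ω) (C : Ω → γ) (ω v : Ω) : 0 ≤ crs G C ω v := by
  unfold crs
  split_ifs <;> norm_num

theorem crs_swap {Ω γ γ' : Type} (G : Set Ω) (f : Ω → γ) (g : Ω → γ') :
    crs G (fun ω => (f ω, g ω)) = crs G (fun ω => (g ω, f ω)) := by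
  funext ω v
  have h : ((f ω, g ω) ≠ (f v, g v)) ↔ ((g ω, f ω) ≠ (g v, f v)) := by
    rw [Ne, Ne, Prod.ext_iff, Prod.ext_iff]
    simp only [and_comm]
  have h' : (ω ∈ G ∧ (f ω, g ω) ≠ (f v, g v)) ↔ (ω ∈ G ∧ (g ω, f ω) ≠ (g v, f v)) :=
    and_congr_right fun _ => h
  unfold crs
  by_cases hc : ω ∈ G ∧ (f ω, g ω) ≠ (f v, g v)
  · rw [if_pos hc, if_pos (h'.1 hc)]
  · rw [if_neg hc, if_neg (fun x => hc (h'.2 x))]

/-- **One level, both coordinates.** -/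
theorem pair_level {C₀ : ℝ} (hful : FulAt C₀) {s : ℕ} (h : d.OK s) (u : ℤ) {K k' ℓ : ℕ}
    (hs : 6 * K ≤ s) (hk : k' ≤ 6 * K) (hℓ1 : 6 * K ≤ ℓ) (hℓ2 : ℓ + 7 * K ≤ d.X)
    (hKC : C₀ ≤ K * Real.log 2) {a₀ c : ℝ} (ha₀ : 0 < a₀) (hc : 0 < c) (D : Set d.Om)
    (hD : ∀ ω, 0 < d.P ω → ω ∉ D → d.dead k' ℓ ω ≤ 1 - c) :
    2 * ((1 - Pr d.P d.Gᶜ - Pr d.P D - d.er K k' u a₀ c ℓ) * (K * Real.log 2 - C₀)) ≤
      CH d.P (d.row u ℓ) (fun ω => (d.row u (ℓ - K) ω, d.tim K ℓ ω)) := by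
  have hp0 := h.law.nonneg
  -- the hypotheses on the positions
  have k0 : ∀ k, ∀ ω ω', 0 < d.P ω → 0 < d.P ω' → ω ∈ d.G → d.L 0 ω = d.L 0 ω' →
      d.a ω = d.a ω' → |(((d.N k ω' + u : ℤ) : ℝ)) - ((d.N k ω + u : ℤ) : ℝ)| ≤
        4 + 2 ^ d.X * |d.th ω' - d.th ω| / 2 ^ s := by
    intro k ω ω' a1 a2 a3 a4 a5
    have := h.h0 ω ω' a1 a2 a4 a5 k
    push_cast
    rwa [add_sub_add_right_eq_sub]
  have kv : ∀ k j, ∀ ω ω', 0 < d.P ω → 0 < d.P ω' → ω ∈ d.G → d.L j ω = d.L j ω' →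
      d.a ω = d.a ω' → |((((d.N k ω' + u : ℤ) : ℝ)) - ((d.N k ω + u : ℤ) : ℝ)) -
        2 ^ d.X * ((d.th ω' - d.th ω) * vel j k)| ≤
        4 + 2 ^ d.X * |d.th ω' - d.th ω| / 2 ^ s := by
    intro k j ω ω' a1 a2 a3 a4 a5
    have := h.hv ω ω' a1 a2 a3 j a4 a5 k
    push_cast
    rwa [add_sub_add_right_eq_sub]
  -- the informations
  have ii : ∀ j, mi d.P (tl d.th (ℓ + 7 * K)) (d.L j) (fun ω => (tl d.th ℓ ω, d.a ω)) ≤
      d.i0 K ℓ := fun j => Finset.single_le_sum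
        (f := fun j => mi d.P (tl d.th (ℓ + 7 * K)) (d.L j) (fun ω => (tl d.th ℓ ω, d.a ω)))
        (fun _ _ => mi_nonneg hp0 _ _ _) (Finset.mem_univ j)
  have i3 : mi d.P (tl d.th (ℓ + 7 * K)) d.a (fun ω => (d.L 0 ω, (d.b ω, tl d.th ℓ ω))) ≤
      d.i1 K ℓ := by
    refine le_of_eq ?_
    unfold i1
    refine mi_congr hp0 _ _ ?_ ?_ <;>
    · intro ω ω' _ _ hh
      simp only [Prod.mk.injEq] at hh ⊢
      tauto
  have cc : ∀ j, EE d.P (fun ω => (d.L j ω, (tl d.th ℓ ω, d.a ω)))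
      (crs d.G (d.row u (ℓ - 6 * K))) ≤ d.cr K u ℓ := fun j => Finset.single_le_sum
        (f := fun j => EE d.P (fun ω => (d.L j ω, (tl d.th ℓ ω, d.a ω)))
          (crs d.G (d.row u (ℓ - 6 * K))))
        (fun _ _ => EE_nonneg hp0 _ (crs_nonneg _ _)) (Finset.mem_univ j)
  have csw : crs d.G (fun ω => (rr d.X (ℓ - 6 * K) (fun ω => d.N 1 ω + u) ω,
      rr d.X (ℓ - 6 * K) (fun ω => d.N 0 ω + u) ω)) = crs d.G (d.row u (ℓ - 6 * K)) :=
    crs_swap d.G _ _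
  have cw : ∀ j, EE d.P (fun ω => (d.L j ω, (tl d.th ℓ ω, d.a ω)))
      (crs d.G (fun ω => (rr d.X (ℓ - 6 * K) (fun ω => d.N 1 ω + u) ω,
      rr d.X (ℓ - 6 * K) (fun ω => d.N 0 ω + u) ω))) ≤ d.cr K u ℓ := fun j => by
    rw [csw]
    exact cc j
  have A := level hful h.law d.a d.b h.hab d.th (fun ω => d.N 0 ω + u) (fun ω => d.N 1 ω + u)
    (d.L 0) (d.L 1) d.G D hs hk hℓ1 hℓ2 hKC h.hG
    (fun ω ω' a1 a2 a3 a4 a5 => ⟨k0 0 ω ω' a1 a2 a3 a4 a5, k0 1 ω ω' a1 a2 a3 a4 a5⟩)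
    (fun ω ω' a1 a2 a3 a4 a5 => ⟨by
      have := kv 0 1 ω ω' a1 a2 a3 a4 a5
      rwa [show vel 1 0 = 1 from rfl, mul_one] at this, by
      have := kv 1 1 ω ω' a1 a2 a3 a4 a5
      rwa [show vel 1 1 = 0 from rfl, mul_zero, mul_zero, sub_zero] at this⟩)
    ha₀ hc (ii 0) (ii 1) i3 (cc 0) (cc 1) hD
  have B := level hful h.law d.a d.b h.hab d.th (fun ω => d.N 1 ω + u) (fun ω => d.N 0 ω + u)
    (d.L 0) (d.L 2) d.G D hs hk hℓ1 hℓ2 hKC h.hG
    (fun ω ω' a1 a2 a3 a4 a5 => ⟨k0 1 ω ω' a1 a2 a3 a4 a5, k0 0 ω ω' a1 a2 a3 a4 a5⟩)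
    (fun ω ω' a1 a2 a3 a4 a5 => ⟨by
      have := kv 1 2 ω ω' a1 a2 a3 a4 a5
      rwa [show vel 2 1 = 1 from rfl, mul_one] at this, by
      have := kv 0 2 ω ω' a1 a2 a3 a4 a5
      rwa [show vel 2 0 = 0 from rfl, mul_zero, mul_zero, sub_zero] at this⟩)
    ha₀ hc (ii 0) (ii 2) i3 (cw 0) (cw 2) hD
  -- the two coordinates together
  have hrow : ∀ (N : d.Om → ℤ) ω ω', rr d.X ℓ N ω = rr d.X ℓ N ω' →
      rr d.X (ℓ - K) N ω = rr d.X (ℓ - K) N ω' := by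
    intro N ω ω' e
    have e1 : (ℓ - K) + K = ℓ := by omega
    have e2 := rr_up (X := d.X) (r := ℓ - K) (s := K) (by omega) N ω
    have e3 := rr_up (X := d.X) (r := ℓ - K) (s := K) (by omega) N ω'
    rw [e1] at e2 e3
    rw [← e2, ← e3, e]
  have c1 := CH_chain hp0 (rr d.X ℓ (fun ω => d.N 0 ω + u)) (rr d.X ℓ (fun ω => d.N 1 ω + u))
    (fun ω => (d.row u (ℓ - K) ω, d.tim K ℓ ω))
  have c2 := CH_mono_cond hp0 (X := rr d.X ℓ (fun ω => d.N 0 ω + u))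
    (W' := fun ω => ((rr d.X (ℓ - K) (fun ω => d.N 0 ω + u) ω, rr d.X ℓ (fun ω => d.N 1 ω + u) ω),
        ((tl d.th (ℓ + 7 * K) ω, d.a ω), (rr d.X (ℓ - 6 * K) (fun ω => d.N 0 ω + u) ω,
          rr d.X (ℓ - 6 * K) (fun ω => d.N 1 ω + u) ω))))
    (W := fun ω => (rr d.X ℓ (fun ω => d.N 1 ω + u) ω, (d.row u (ℓ - K) ω, d.tim K ℓ ω)))
    (fun ω ω' _ _ e => by
      have e' := hrow (fun ω => d.N 1 ω + u) ω ω' (Prod.ext_iff.mp (Prod.ext_iff.mp e).1).2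
      unfold row tim
      simp only [Prod.mk.injEq] at e ⊢
      exact ⟨e.1.2, ⟨e.1.1, e'⟩, e.2.1⟩)
  have c3 := CH_mono_cond hp0 (X := rr d.X ℓ (fun ω => d.N 1 ω + u))
    (W' := fun ω => ((rr d.X (ℓ - K) (fun ω => d.N 1 ω + u) ω, rr d.X ℓ (fun ω => d.N 0 ω + u) ω),
        ((tl d.th (ℓ + 7 * K) ω, d.a ω), (rr d.X (ℓ - 6 * K) (fun ω => d.N 1 ω + u) ω,
          rr d.X (ℓ - 6 * K) (fun ω => d.N 0 ω + u) ω))))
    (W := fun ω => (d.row u (ℓ - K) ω, d.tim K ℓ ω))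
    (fun ω ω' _ _ e => by
      have e' := hrow (fun ω => d.N 0 ω + u) ω ω' (Prod.ext_iff.mp (Prod.ext_iff.mp e).1).2
      unfold row tim
      simp only [Prod.mk.injEq] at e ⊢
      exact ⟨⟨e', e.1.1⟩, e.2.1⟩)
  have e0 : CH d.P (d.row u ℓ) (fun ω => (d.row u (ℓ - K) ω, d.tim K ℓ ω)) =
      CH d.P (fun ω => (rr d.X ℓ (fun ω => d.N 0 ω + u) ω, rr d.X ℓ (fun ω => d.N 1 ω + u) ω))
        (fun ω => (d.row u (ℓ - K) ω, d.tim K ℓ ω)) := rfl
  unfold er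
  linarith

/-- The rows are known from the line and the time. -/
theorem OK.rowL {s : ℕ} (h : d.OK s) (u : ℤ) {K ℓ : ℕ} (hK : 1 ≤ K) (hℓ2 : ℓ + 7 * K ≤ d.X) :
    CH d.P (d.row u ℓ) (fun ω => (d.L 0 ω, d.tim K ℓ ω)) ≤ 2 * Real.log 3 := by
  have hp0 := h.law.nonneg
  have key : ∀ k, CH d.P (rr d.X ℓ (fun ω => d.N k ω + u)) (fun ω => (d.L 0 ω, d.tim K ℓ ω)) ≤
      Real.log 3 := by
    intro k
    have h1 := CH_le_int hp0 h.law.sum_one (rr d.X ℓ (fun ω => d.N k ω + u))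
      (fun ω => (d.L 0 ω, d.tim K ℓ ω)) (fun _ => 1) (by
        intro ω ω' a1 a2 e
        have e' := Prod.ext_iff.mp e
        have e1 : d.L 0 ω = d.L 0 ω' := e'.1
        have e2 := Prod.ext_iff.mp e'.2
        have e3 : tl d.th (ℓ + 7 * K) ω = tl d.th (ℓ + 7 * K) ω' := e2.1
        have e4 : d.a ω = d.a ω' := e2.2
        have g1 := h.h0 ω' ω a2 a1 e1.symm e4.symm k
        have g2 := tl_near (th := d.th) e3.symm
        have hDp : 0 < 2 ^ (d.X - ℓ) := by positivity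
        have hDr : (0 : ℝ) < ((2 ^ (d.X - ℓ) : ℕ) : ℝ) := by exact_mod_cast hDp
        have g3 := div_diff (d.N k ω' + u) (d.N k ω + u) hDp
        have x1 : (2 : ℝ) ^ d.X * |d.th ω - d.th ω'| / 2 ^ s ≤
            ((2 ^ (d.X - ℓ) : ℕ) : ℝ) / 128 := by
          have y0 : (2 : ℝ) ^ d.X * |d.th ω - d.th ω'| / 2 ^ s ≤ 2 ^ d.X * |d.th ω - d.th ω'| :=
            div_le_self (by positivity) (one_le_pow₀ (by norm_num))
          have y1 : (2 : ℝ) ^ d.X * |d.th ω - d.th ω'| ≤ 2 ^ d.X * (1 / 2 ^ (ℓ + 7 * K)) := by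
            gcongr
          have y2 : (2 : ℝ) ^ d.X * (1 / 2 ^ (ℓ + 7 * K)) = 2 ^ (d.X - (ℓ + 7 * K)) := by
            rw [mul_one_div, div_eq_iff (by positivity), ← pow_add]
            congr 1
            omega
          have y3 : (2 : ℝ) ^ (d.X - (ℓ + 7 * K)) * 128 ≤ ((2 ^ (d.X - ℓ) : ℕ) : ℝ) := by
            push_cast
            rw [show (128 : ℝ) = 2 ^ 7 by norm_num, ← pow_add]
            exact pow_le_pow_right₀ (by norm_num) (by omega)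
          linarith
        have x2 : (4 : ℝ) ≤ ((2 ^ (d.X - ℓ) : ℕ) : ℝ) / 32 := by
          have : (2 : ℝ) ^ 7 ≤ ((2 ^ (d.X - ℓ) : ℕ) : ℝ) := by
            push_cast
            exact pow_le_pow_right₀ (by norm_num) (by omega)
          linarith
        have x3 : |(((d.N k ω + u : ℤ) : ℝ) - ((d.N k ω' + u : ℤ) : ℝ)) /
            ((2 ^ (d.X - ℓ) : ℕ) : ℝ)| ≤ 1 / 16 := by
          rw [abs_div, abs_of_pos hDr, div_le_iff₀ hDr]
          push_cast at g1 ⊢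
          push_cast at x1 x2
          rw [add_sub_add_right_eq_sub]
          linarith
        have x4 : |(((d.N k ω + u) / ((2 ^ (d.X - ℓ) : ℕ) : ℤ) -
            (d.N k ω' + u) / ((2 ^ (d.X - ℓ) : ℕ) : ℤ) : ℤ) : ℝ)| < 2 := by
          rw [abs_lt] at g3 ⊢
          rw [abs_le] at x3
          push_cast at g3 x3 ⊢
          constructor <;> linarith [g3.1, g3.2, x3.1, x3.2]
        have x5 : |(d.N k ω + u) / ((2 ^ (d.X - ℓ) : ℕ) : ℤ) -
            (d.N k ω' + u) / ((2 ^ (d.X - ℓ) : ℕ) : ℤ)| < 2 := by exact_mod_cast x4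
        have x6 : |(d.N k ω + u) / ((2 ^ (d.X - ℓ) : ℕ) : ℤ) -
            (d.N k ω' + u) / ((2 ^ (d.X - ℓ) : ℕ) : ℤ)| ≤ 1 := by omega
        show |(((d.N k ω + u) / ((2 ^ (d.X - ℓ) : ℕ) : ℤ) -
            (d.N k ω' + u) / ((2 ^ (d.X - ℓ) : ℕ) : ℤ) : ℤ) : ℝ)| ≤ 1
        exact_mod_cast x6)
    rw [Ex_const h.law.sum_one] at h1
    norm_num at h1
    exact h1
  have h2 := CH_subadd hp0 (rr d.X ℓ (fun ω => d.N 0 ω + u)) (rr d.X ℓ (fun ω => d.N 1 ω + u))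
    (fun ω => (d.L 0 ω, d.tim K ℓ ω))
  have e0 : CH d.P (d.row u ℓ) (fun ω => (d.L 0 ω, d.tim K ℓ ω)) =
      CH d.P (fun ω => (rr d.X ℓ (fun ω => d.N 0 ω + u) ω, rr d.X ℓ (fun ω => d.N 1 ω + u) ω))
        (fun ω => (d.L 0 ω, d.tim K ℓ ω)) := rfl
  have h3 := key 0
  have h4 := key 1
  linarith

/-- The sum of the errors. -/
theorem OK.errs {s : ℕ} (h : d.OK s) (u : ℤ) {K : ℕ} (hK : 1 ≤ K) (k' : ℕ) {a₀ c δ : ℝ}
    (ha₀ : 0 < a₀) (hc : 0 < c) {n : ℕ} (hn : n * K + 14 * K ≤ d.X)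
    (hu : ∑ ℓ ∈ (Finset.range d.X).filter (fun ℓ => 6 * K ≤ ℓ ∧ ℓ + 7 * K ≤ d.X),
      d.cr K u ℓ ≤ 64 / 2 ^ (6 * K) * d.X)
    (hT : ∀ j, mi d.P (d.L j) d.T d.a ≤ δ * d.X)
    (hTb : mi d.P d.T d.a (fun ω => (d.L 0 ω, d.b ω)) ≤ δ * d.X) :
    ∑ i ∈ range (n * K), d.er K k' u a₀ c (7 * K + i) ≤
      d.X * ((2 * (2 * (a₀ + 21 * K * δ / a₀) + 80 / 2 ^ (6 * K)) * (9 * 4 ^ (K + k')) +
        (a₀ + 21 * K * δ / a₀) + (a₀ + 7 * K * δ / a₀)) / c) := by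
  have hp0 := h.law.nonneg
  -- sums over the levels
  have win : ∀ g : ℕ → ℝ, (∀ ℓ, 0 ≤ g ℓ) → ∑ i ∈ range (n * K), g (7 * K + i) ≤
      ∑ ℓ ∈ (Finset.range d.X).filter (fun ℓ => 6 * K ≤ ℓ ∧ ℓ + 7 * K ≤ d.X), g ℓ := by
    intro g hg
    have e1 : ∑ i ∈ range (n * K), g (7 * K + i) =
        ∑ ℓ ∈ (range (n * K)).image (fun i => 7 * K + i), g ℓ := by
      rw [Finset.sum_image]
      intro a _ b _ hab
      exact Nat.add_left_cancel hab
    rw [e1]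
    refine Finset.sum_le_sum_of_subset_of_nonneg ?_ fun ℓ _ _ => hg ℓ
    intro ℓ hℓ
    obtain ⟨i, hi, rfl⟩ := Finset.mem_image.mp hℓ
    have hi' := Finset.mem_range.mp hi
    refine Finset.mem_filter.mpr ⟨Finset.mem_range.mpr (by omega), by omega, by omega⟩
  have all : ∀ g : ℕ → ℝ, (∀ ℓ, 0 ≤ g ℓ) →
      ∑ ℓ ∈ (Finset.range d.X).filter (fun ℓ => 6 * K ≤ ℓ ∧ ℓ + 7 * K ≤ d.X), g ℓ ≤
      ∑ ℓ ∈ range d.X, g ℓ := fun g hg =>
    Finset.sum_le_sum_of_subset_of_nonneg (Finset.filter_subset _ _) fun ℓ _ _ => hg ℓ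
  have i0n : ∀ ℓ, 0 ≤ d.i0 K ℓ := fun ℓ => Finset.sum_nonneg fun _ _ => mi_nonneg hp0 _ _ _
  have i1n : ∀ ℓ, 0 ≤ d.i1 K ℓ := fun ℓ => mi_nonneg hp0 _ _ _
  have crn : ∀ ℓ, 0 ≤ d.cr K u ℓ := fun ℓ =>
    Finset.sum_nonneg fun _ _ => EE_nonneg hp0 _ (crs_nonneg _ _)
  have hQ : 0 < 7 * K := by omega
  have b0 : ∑ i ∈ range (n * K), d.i0 K (7 * K + i) ≤ 21 * K * (δ * d.X) := by
    refine ((win _ i0n).trans (all _ i0n)).trans ?_
    have e1 : ∑ ℓ ∈ range d.X, d.i0 K ℓ = ∑ j : Fin 3, ∑ ℓ ∈ range d.X,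
        mi d.P (tl d.th (ℓ + 7 * K)) (d.L j) (fun ω => (tl d.th ℓ ω, d.a ω)) := by
      unfold i0
      exact Finset.sum_comm
    have e2 : ∀ j, ∑ ℓ ∈ range d.X,
        mi d.P (tl d.th (ℓ + 7 * K)) (d.L j) (fun ω => (tl d.th ℓ ω, d.a ω)) ≤
        ((7 * K : ℕ) : ℝ) * (δ * d.X) := fun j =>
      budget hp0 d.th (d.L j) d.a d.T (fun r ω ω' x y hh => h.hthr r ω ω' x y
        (Prod.ext (Prod.ext_iff.mp hh).1 (h.hab ω ω' x y (Prod.ext_iff.mp hh).2)))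
        (by
          have := hT j
          rwa [mi_comm hp0] at this) hQ d.X
    have e3 := Finset.sum_le_sum (s := Finset.univ) fun j _ => e2 j
    rw [e1]
    refine e3.trans (le_of_eq ?_)
    rw [Finset.sum_const, Finset.card_univ, Fintype.card_fin, nsmul_eq_mul]
    push_cast
    ring
  have b1 : ∑ i ∈ range (n * K), d.i1 K (7 * K + i) ≤ 7 * K * (δ * d.X) := by
    refine ((win _ i1n).trans (all _ i1n)).trans ?_
    have e2 := budget hp0 d.th d.a (fun ω => (d.L 0 ω, d.b ω)) d.T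
      (fun r ω ω' x y hh => h.hthr r ω ω' x y
        (Prod.ext (Prod.ext_iff.mp hh).1 (Prod.ext_iff.mp (Prod.ext_iff.mp hh).2).2)) hTb hQ d.X
    refine e2.trans (le_of_eq ?_)
    push_cast
    ring
  have b2 : ∑ i ∈ range (n * K), d.cr K u (7 * K + i) ≤ 64 / 2 ^ (6 * K) * d.X :=
    (win _ crn).trans hu
  have hnX : ((n * K : ℕ) : ℝ) ≤ d.X := by
    have : n * K ≤ d.X := by omega
    exact_mod_cast this
  set M : ℝ := 9 * 4 ^ (K + k') with hM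
  have hM0 : 0 < M := by positivity
  have e1 : ∀ ℓ, d.er K k' u a₀ c ℓ = ((2 * (2 * a₀ + 16 / 2 ^ (6 * K)) * M + 2 * a₀) / c) +
      (4 * M + 1) / (a₀ * c) * d.i0 K ℓ + 2 * M / c * d.cr K u ℓ + 1 / (a₀ * c) * d.i1 K ℓ := by
    intro ℓ
    unfold er
    rw [← hM]
    field_simp
    ring
  rw [Finset.sum_congr rfl fun i _ => e1 (7 * K + i)]
  rw [Finset.sum_add_distrib, Finset.sum_add_distrib, Finset.sum_add_distrib, ← Finset.mul_sum,
    ← Finset.mul_sum, ← Finset.mul_sum, Finset.sum_const, Finset.card_range, nsmul_eq_mul]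
  have c0 : ((n * K : ℕ) : ℝ) * ((2 * (2 * a₀ + 16 / 2 ^ (6 * K)) * M + 2 * a₀) / c) ≤
      d.X * ((2 * (2 * a₀ + 16 / 2 ^ (6 * K)) * M + 2 * a₀) / c) := by gcongr
  have c1 : (4 * M + 1) / (a₀ * c) * ∑ i ∈ range (n * K), d.i0 K (7 * K + i) ≤
      (4 * M + 1) / (a₀ * c) * (21 * K * (δ * d.X)) := by gcongr
  have c2 : 2 * M / c * ∑ i ∈ range (n * K), d.cr K u (7 * K + i) ≤
      2 * M / c * (64 / 2 ^ (6 * K) * d.X) := by gcongr
  have c3 : 1 / (a₀ * c) * ∑ i ∈ range (n * K), d.i1 K (7 * K + i) ≤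
      1 / (a₀ * c) * (7 * K * (δ * d.X)) := by gcongr
  have e2 : d.X * ((2 * (2 * (a₀ + 21 * K * δ / a₀) + 80 / 2 ^ (6 * K)) * M +
        (a₀ + 21 * K * δ / a₀) + (a₀ + 7 * K * δ / a₀)) / c) =
      d.X * ((2 * (2 * a₀ + 16 / 2 ^ (6 * K)) * M + 2 * a₀) / c) +
      (4 * M + 1) / (a₀ * c) * (21 * K * (δ * d.X)) + 2 * M / c * (64 / 2 ^ (6 * K) * d.X) +
      1 / (a₀ * c) * (7 * K * (δ * d.X)) := by
    field_simp
    ring
  rw [e2]
  linarith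

theorem row_down (u : ℤ) {r K : ℕ} (h : r + K ≤ d.X) {ω ω' : d.Om}
    (e : d.row u (r + K) ω = d.row u (r + K) ω') : d.row u r ω = d.row u r ω' := by
  have e2 := Prod.ext_iff.mp e
  have key : ∀ N : d.Om → ℤ, rr d.X (r + K) N ω = rr d.X (r + K) N ω' →
      rr d.X r N ω = rr d.X r N ω' := by
    intro N hN
    rw [← rr_up h N ω, ← rr_up h N ω', hN]
  exact Prod.ext (key (fun ω => d.N 0 ω + u) e2.1) (key (fun ω => d.N 1 ω + u) e2.2)

/-- **The sum over the levels.** -/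
theorem OK.total {C₀ : ℝ} (hful : FulAt C₀) {s : ℕ} (h : d.OK s) (u : ℤ) {K k' : ℕ} (hK : 1 ≤ K)
    (hs : 6 * K ≤ s) (hk : k' ≤ 6 * K) (hKC : C₀ ≤ K * Real.log 2) {a₀ c δ : ℝ}
    (ha₀ : 0 < a₀) (hc : 0 < c) (hX : 15 * K ≤ d.X)
    (hu : ∑ ℓ ∈ (Finset.range d.X).filter (fun ℓ => 6 * K ≤ ℓ ∧ ℓ + 7 * K ≤ d.X),
      d.cr K u ℓ ≤ 64 / 2 ^ (6 * K) * d.X)
    (hT : ∀ j, mi d.P (d.L j) d.T d.a ≤ δ * d.X)
    (hTb : mi d.P d.T d.a (fun ω => (d.L 0 ω, d.b ω)) ≤ δ * d.X) (D : ℕ → Set d.Om)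
    (hD : ∀ i ω, 0 < d.P ω → ω ∉ D i → d.dead k' i ω ≤ 1 - c) :
    2 * ((d.X * (1 - Pr d.P d.Gᶜ) - 15 * K - ∑ i ∈ range d.X, Pr d.P (D i) -
      d.X * ((2 * (2 * (a₀ + 21 * K * δ / a₀) + 80 / 2 ^ (6 * K)) * (9 * 4 ^ (K + k')) +
        (a₀ + 21 * K * δ / a₀) + (a₀ + 7 * K * δ / a₀)) / c)) * (K * Real.log 2 - C₀)) ≤
      K * (CH d.P (fun ω => (d.N 0 ω, d.N 1 ω)) (fun ω => (d.T ω, d.a ω)) + δ * d.X) +
        (d.X + K) * (2 * Real.log 3) := by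
  have hp0 := h.law.nonneg
  have hΛ : 0 ≤ K * Real.log 2 - C₀ := by linarith
  set n : ℕ := (d.X - 14 * K) / K with hn
  have hn1 : n * K ≤ d.X - 14 * K := Nat.div_mul_le_self _ _
  have hn2 : d.X - 14 * K < n * K + K := by
    have := Nat.lt_div_mul_add (a := d.X - 14 * K) (b := K) (by omega)
    exact this
  have hn3 : n * K + 14 * K ≤ d.X := by omega
  -- one class
  set ρ : ℕ → ℝ := fun ℓ => 1 - Pr d.P d.Gᶜ - Pr d.P (D ℓ) - d.er K k' u a₀ c ℓ with hρ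
  have cls : ∀ r ∈ range K, ∑ j ∈ range n, 2 * (ρ (7 * K + (r + j * K)) * (K * Real.log 2 - C₀)) ≤
      CH d.P (fun ω => (d.N 0 ω, d.N 1 ω)) (fun ω => (d.T ω, d.a ω)) + δ * d.X +
        (n + 1) * (2 * Real.log 3) := by
    intro r hr
    have hr' := Finset.mem_range.mp hr
    have hlev : ∀ j ≤ n, 6 * K + r + j * K + 7 * K ≤ d.X := by
      intro j hj
      have : j * K ≤ n * K := Nat.mul_le_mul_right K hj
      omega
    have a1 := chain hp0 (fun j => d.row u (6 * K + r + j * K)) (fun j => d.tim K (6 * K + r + j * K))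
      (d.L 0) (R := 2 * Real.log 3) n (fun j hj ω ω' _ _ e => by
        have e0 : 6 * K + r + (j + 1) * K = 6 * K + r + j * K + K := by ring
        have e1 : d.row u (6 * K + r + (j + 1) * K) ω = d.row u (6 * K + r + (j + 1) * K) ω' := e
        rw [e0] at e1
        have hle : 6 * K + r + j * K + K ≤ d.X := by
          have := hlev (j + 1) (by omega)
          omega
        exact row_down u hle e1)
      (fun j hj => h.rowL u hK (hlev j hj.le))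
    have a2 := drop1 hp0 (d.row u (6 * K + r + n * K)) (d.tim K (6 * K + r + n * K))
      (fun ω => (d.T ω, d.a ω)) (d.L 0) (h.rowL u hK (hlev n le_rfl))
    have a3 : CH d.P (d.row u (6 * K + r + n * K)) (fun ω => (d.T ω, d.a ω)) ≤
        CH d.P (fun ω => (d.N 0 ω, d.N 1 ω)) (fun ω => (d.T ω, d.a ω)) :=
      CH_mono_left hp0 (fun ω ω' _ _ e => by
        have e1 := Prod.ext_iff.mp (Prod.ext_iff.mp e).1
        unfold row rr
        simp only at e1 ⊢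
        rw [e1.1, e1.2])
    have a4 := tsum hp0 (fun j => tl d.th (6 * K + r + j * K + 7 * K)) d.T (d.L 0) d.a n
      (fun i ω ω' _ _ e => by
        have e0 : 6 * K + r + (i + 1) * K + 7 * K = 6 * K + r + i * K + 7 * K + K := by ring
        have e1 : tl d.th (6 * K + r + (i + 1) * K + 7 * K) ω =
          tl d.th (6 * K + r + (i + 1) * K + 7 * K) ω' := (Prod.ext_iff.mp e).1
        rw [e0] at e1
        show tl d.th (6 * K + r + i * K + 7 * K) ω = tl d.th (6 * K + r + i * K + 7 * K) ω'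
        rw [tl_down d.th _ K ω, tl_down d.th _ K ω', e1])
      (fun ω ω' x y hh => h.hthr _ ω ω' x y
        (Prod.ext (Prod.ext_iff.mp hh).1 (h.hab ω ω' x y (Prod.ext_iff.mp hh).2)))
    have a5 := hT 0
    rw [mi_comm hp0] at a5
    have a6 : ∑ j ∈ range n, 2 * (ρ (7 * K + (r + j * K)) * (K * Real.log 2 - C₀)) ≤
        ∑ j ∈ range n, CH d.P (d.row u (6 * K + r + (j + 1) * K))
          (fun ω => (d.row u (6 * K + r + j * K) ω, d.tim K (6 * K + r + (j + 1) * K) ω)) := by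
      refine Finset.sum_le_sum fun j hj => ?_
      have hj' := Finset.mem_range.mp hj
      have e0 : 7 * K + (r + j * K) = 6 * K + r + (j + 1) * K := by ring
      have e1 : 6 * K + r + (j + 1) * K - K = 6 * K + r + j * K := by
        have : (j + 1) * K = j * K + K := by ring
        omega
      have b1 := pair_level hful h u (K := K) (k' := k') (ℓ := 6 * K + r + (j + 1) * K) hs hk
        (by omega) (hlev (j + 1) (by omega)) hKC ha₀ hc (D (6 * K + r + (j + 1) * K))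
        (hD (6 * K + r + (j + 1) * K))
      rw [e1] at b1
      rw [e0]
      exact b1
    have a7 : ∑ j ∈ range n, mi d.P (d.tim K (6 * K + r + (j + 1) * K)) (d.L 0)
        (d.tim K (6 * K + r + j * K)) + mi d.P (fun ω => (d.T ω, d.a ω)) (d.L 0)
        (d.tim K (6 * K + r + n * K)) ≤ δ * d.X := a4.trans a5
    linarith
  have tot := Finset.sum_le_sum cls
  rw [dsum (fun i => 2 * (ρ (7 * K + i) * (K * Real.log 2 - C₀))) K n, Finset.sum_const,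
    Finset.card_range, nsmul_eq_mul, ← Finset.mul_sum, ← Finset.sum_mul] at tot
  have hE := h.errs u hK k' ha₀ hc hn3 hu hT hTb
  have hDs : ∑ i ∈ range (n * K), Pr d.P (D (7 * K + i)) ≤ ∑ i ∈ range d.X, Pr d.P (D i) := by
    have e1 : ∑ i ∈ range (n * K), Pr d.P (D (7 * K + i)) =
        ∑ ℓ ∈ (range (n * K)).image (fun i => 7 * K + i), Pr d.P (D ℓ) := by
      rw [Finset.sum_image]
      intro a _ b _ hab
      exact Nat.add_left_cancel hab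
    rw [e1]
    refine Finset.sum_le_sum_of_subset_of_nonneg ?_ fun ℓ _ _ => Pr_nonneg hp0 _
    intro ℓ hℓ
    obtain ⟨i, hi, rfl⟩ := Finset.mem_image.mp hℓ
    have hi' := Finset.mem_range.mp hi
    exact Finset.mem_range.mpr (by omega)
  have hρs : ∑ i ∈ range (n * K), ρ (7 * K + i) = ((n * K : ℕ) : ℝ) * (1 - Pr d.P d.Gᶜ) -
      ∑ i ∈ range (n * K), Pr d.P (D (7 * K + i)) -
      ∑ i ∈ range (n * K), d.er K k' u a₀ c (7 * K + i) := by
    simp only [hρ]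
    rw [Finset.sum_sub_distrib, Finset.sum_sub_distrib, Finset.sum_const, Finset.card_range,
      nsmul_eq_mul]
  have g0 : 0 ≤ Pr d.P d.Gᶜ := Pr_nonneg hp0 _
  have g1 : Pr d.P d.Gᶜ ≤ 1 := Pr_le_one h.law _
  have n1 : (d.X : ℝ) - 15 * K ≤ ((n * K : ℕ) : ℝ) := by
    have : d.X ≤ n * K + 15 * K := by omega
    have h' : (d.X : ℝ) ≤ ((n * K : ℕ) : ℝ) + 15 * K := by exact_mod_cast this
    linarith
  have n2 : ((n * K : ℕ) : ℝ) ≤ d.X := by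
    have : n * K ≤ d.X := by omega
    exact_mod_cast this
  have lo : d.X * (1 - Pr d.P d.Gᶜ) - 15 * K - ∑ i ∈ range d.X, Pr d.P (D i) -
      d.X * ((2 * (2 * (a₀ + 21 * K * δ / a₀) + 80 / 2 ^ (6 * K)) * (9 * 4 ^ (K + k')) +
        (a₀ + 21 * K * δ / a₀) + (a₀ + 7 * K * δ / a₀)) / c) ≤
      ∑ i ∈ range (n * K), ρ (7 * K + i) := by
    rw [hρs]
    have e1 : (d.X : ℝ) * (1 - Pr d.P d.Gᶜ) - 15 * K ≤
        ((n * K : ℕ) : ℝ) * (1 - Pr d.P d.Gᶜ) := by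
      have e2 : ((d.X : ℝ) - 15 * K) * (1 - Pr d.P d.Gᶜ) ≤
        ((n * K : ℕ) : ℝ) * (1 - Pr d.P d.Gᶜ) :=
        mul_le_mul_of_nonneg_right n1 (by linarith)
      have e3 : 0 ≤ 15 * (K : ℝ) * Pr d.P d.Gᶜ := by positivity
      nlinarith
    linarith
  have lo' := mul_le_mul_of_nonneg_right lo hΛ
  have up : (K : ℝ) * (CH d.P (fun ω => (d.N 0 ω, d.N 1 ω)) (fun ω => (d.T ω, d.a ω)) +
      δ * d.X + (n + 1) * (2 * Real.log 3)) ≤
      K * (CH d.P (fun ω => (d.N 0 ω, d.N 1 ω)) (fun ω => (d.T ω, d.a ω)) + δ * d.X) +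
        (d.X + K) * (2 * Real.log 3) := by
    have l3 : 0 ≤ 2 * Real.log 3 := by positivity
    have e1 : (K : ℝ) * (n + 1) ≤ d.X + K := by
      push_cast at n2
      linarith
    have e2 := mul_le_mul_of_nonneg_right e1 l3
    linarith
  linarith

end CD

/-- **Core.** -/
theorem core_thm (hful : FulStmt) (hsh : ShiftStmt) : CoreStmt := by
  obtain ⟨C₀, hC₀, hful⟩ := hful
  have hful' : FulAt C₀ := hful
  intro k' c ε hc hε
  have hl2 : 0 < Real.log 2 := Real.log_pos (by norm_num)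
  have hl3 : 0 < Real.log 3 := Real.log_pos (by norm_num)
  -- the length of a block
  obtain ⟨K, hK1, hKk, hKC, hKC2, hK3, hK4⟩ : ∃ K : ℕ, 1 ≤ K ∧ k' ≤ 6 * K ∧
      C₀ ≤ K * Real.log 2 ∧ 2 * C₀ ≤ ε / 8 * Real.log 2 * K ∧
      2 * Real.log 3 ≤ ε / 8 * Real.log 2 * K ∧
      2 * (2 * (80 / 2 ^ (6 * K)) * (9 * 4 ^ (K + k')) / c) ≤ ε / 8 := by
    obtain ⟨n1, hn1⟩ := exists_nat_gt (C₀ / Real.log 2)
    obtain ⟨n2, hn2⟩ := exists_nat_gt (2 * C₀ / (ε / 8 * Real.log 2))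
    obtain ⟨n3, hn3⟩ := exists_nat_gt (2 * Real.log 3 / (ε / 8 * Real.log 2))
    obtain ⟨n4, hn4⟩ := exists_nat_gt (2880 * 4 ^ k' * 8 / (c * ε))
    refine ⟨1 + k' + n1 + n2 + n3 + n4, by omega, by omega, ?_, ?_, ?_, ?_⟩
    · rw [div_lt_iff₀ hl2] at hn1
      push_cast
      nlinarith
    · rw [div_lt_iff₀ (by positivity)] at hn2
      push_cast
      have : 0 ≤ ε / 8 * Real.log 2 * (1 + k' + n1 + n3 + n4) := by positivity
      linarith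
    · rw [div_lt_iff₀ (by positivity)] at hn3
      push_cast
      have : 0 ≤ ε / 8 * Real.log 2 * (1 + k' + n1 + n2 + n4) := by positivity
      linarith
    · set K : ℕ := 1 + k' + n1 + n2 + n3 + n4 with hK
      have e1 : (2 : ℝ) * (2 * (80 / 2 ^ (6 * K)) * (9 * 4 ^ (K + k')) / c) =
          2880 * 4 ^ k' / (c * 16 ^ K) := by
        have x1 : (2 : ℝ) ^ (6 * K) = 16 ^ K * 4 ^ K := by
          rw [show (16 : ℝ) = 2 ^ 4 by norm_num, show (4 : ℝ) = 2 ^ 2 by norm_num, ← pow_mul,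
            ← pow_mul, ← pow_add]
          congr 1
          ring
        rw [x1, pow_add]
        field_simp
        ring
      rw [e1, div_le_iff₀ (by positivity)]
      rw [div_lt_iff₀ (by positivity)] at hn4
      have e2 : (n4 : ℝ) ≤ 16 ^ K := by
        have x1 : n4 < 16 ^ n4 := Nat.lt_pow_self (by norm_num)
        have x2 : 16 ^ n4 ≤ 16 ^ K := Nat.pow_le_pow_right (by norm_num) (by omega)
        exact_mod_cast (x1.le.trans x2)
      have e3 : (n4 : ℝ) * (c * ε) ≤ 16 ^ K * (c * ε) := by gcongr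
      nlinarith
  set M : ℝ := 9 * 4 ^ (K + k') with hM
  have hM0 : 0 < M := by positivity
  -- the threshold
  set a₀ : ℝ := ε * c / (16 * (4 * M + 2)) with ha
  have ha₀ : 0 < a₀ := by positivity
  have hKr : (0 : ℝ) < K := by exact_mod_cast hK1
  set δ : ℝ := min (ε * c * a₀ / (16 * (84 * M + 28) * K)) (ε / 8 * Real.log 2) with hδ
  have hδ0 : 0 < δ := lt_min (by positivity) (by positivity)
  have hδ1 : δ ≤ ε * c * a₀ / (16 * (84 * M + 28) * K) := min_le_left _ _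
  have hδ2 : δ ≤ ε / 8 * Real.log 2 := min_le_right _ _
  obtain ⟨X₁, hX₁⟩ := exists_nat_gt ((30 * K * Real.log 2 + 2 * Real.log 3) /
    (ε / 8 * Real.log 2))
  refine ⟨δ, 6 * K, X₁ + 15 * K, hδ0, ?_⟩
  intro d h hX hT hTb D hD
  obtain ⟨u, hu⟩ := hsh d (6 * K) K h hK1 le_rfl
  have hu' : ∑ ℓ ∈ (Finset.range d.X).filter (fun ℓ => 6 * K ≤ ℓ ∧ ℓ + 7 * K ≤ d.X),
      d.cr K u ℓ ≤ 64 / 2 ^ (6 * K) * d.X := hu
  have tot := h.total hful' u hK1 le_rfl hKk hKC ha₀ hc (by omega) hu' hT hTb D hD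
  rw [← hM] at tot
  set Hf : ℝ := CH d.P (fun ω => (d.N 0 ω, d.N 1 ω)) (fun ω => (d.T ω, d.a ω)) with hHf
  set g : ℝ := Pr d.P d.Gᶜ with hg
  set SD : ℝ := ∑ i ∈ range d.X, Pr d.P (D i) with hSD
  have hp0 := h.law.nonneg
  have g0 : 0 ≤ g := Pr_nonneg hp0 _
  have g1 : g ≤ 1 := Pr_le_one h.law _
  have s0 : 0 ≤ SD := Finset.sum_nonneg fun _ _ => Pr_nonneg hp0 _
  have hXr : (X₁ : ℝ) ≤ d.X := by
    have : X₁ ≤ d.X := by omega
    exact_mod_cast this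
  have hX0 : (0 : ℝ) ≤ d.X := Nat.cast_nonneg _
  -- the error
  set Er : ℝ := (2 * (2 * (a₀ + 21 * K * δ / a₀) + 80 / 2 ^ (6 * K)) * M +
        (a₀ + 21 * K * δ / a₀) + (a₀ + 7 * K * δ / a₀)) / c with hEr
  have hE1 : 2 * Er ≤ 3 * (ε / 8) := by
    have e1 : 2 * Er = 2 * (2 * (80 / 2 ^ (6 * K)) * M / c) + 2 * ((4 * M + 2) * a₀ / c) +
        2 * ((84 * M + 28) * K * δ / (a₀ * c)) := by
      rw [hEr]
      field_simp
      ring
    have e2 : 2 * ((4 * M + 2) * a₀ / c) = ε / 8 := by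
      rw [ha]
      field_simp
      ring
    have e3 : 2 * ((84 * M + 28) * K * δ / (a₀ * c)) ≤ ε / 8 := by
      have x1 : (84 * M + 28) * K * δ / (a₀ * c) ≤ (84 * M + 28) * K *
          (ε * c * a₀ / (16 * (84 * M + 28) * K)) / (a₀ * c) := by gcongr
      have x2 : (84 * M + 28) * K * (ε * c * a₀ / (16 * (84 * M + 28) * K)) / (a₀ * c) =
          ε / 16 := by
        field_simp
      linarith
    linarith
  have hE0 : 0 ≤ Er := by positivity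
  -- the final count
  have hX₁' : 30 * K * Real.log 2 + 2 * Real.log 3 ≤ ε / 8 * Real.log 2 * d.X := by
    rw [div_lt_iff₀ (by positivity)] at hX₁
    have : (X₁ : ℝ) * (ε / 8 * Real.log 2) ≤ d.X * (ε / 8 * Real.log 2) := by gcongr
    linarith
  have t1 : 2 * ((d.X * (1 - g) - 15 * K - SD - d.X * Er) * (K * Real.log 2 - C₀)) =
      K * (2 * Real.log 2 * (d.X * (1 - g) - 15 * K - SD - d.X * Er)) -
        2 * C₀ * (d.X * (1 - g) - 15 * K - SD - d.X * Er) := by ring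
  have t2 : 2 * C₀ * (d.X * (1 - g) - 15 * K - SD - d.X * Er) ≤
      K * (ε / 8 * Real.log 2 * d.X) := by
    have x1 : d.X * (1 - g) - 15 * K - SD - d.X * Er ≤ d.X := by
      have y1 : 0 ≤ d.X * g := by positivity
      have y2 : 0 ≤ d.X * Er := by positivity
      nlinarith
    have x2 : 2 * C₀ * (d.X * (1 - g) - 15 * K - SD - d.X * Er) ≤ 2 * C₀ * d.X := by gcongr
    have x3 : 2 * C₀ * d.X ≤ ε / 8 * Real.log 2 * K * d.X := by gcongr
    linarith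
  have t3 : (d.X + K) * (2 * Real.log 3) ≤ K * (ε / 8 * Real.log 2 * d.X + 2 * Real.log 3) := by
    have x1 : d.X * (2 * Real.log 3) ≤ d.X * (ε / 8 * Real.log 2 * K) := by gcongr
    linarith
  have t4 : δ * d.X ≤ ε / 8 * Real.log 2 * d.X := by gcongr
  have t5 : K * (2 * Real.log 2 * (d.X * (1 - g) - 15 * K - SD - d.X * Er)) ≤
      K * (Hf + 3 * (ε / 8 * Real.log 2 * d.X) + 2 * Real.log 3) := by
    have x1 : K * (Hf + δ * d.X) ≤ K * (Hf + ε / 8 * Real.log 2 * d.X) := by gcongr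
    linarith
  have t6 := le_of_mul_le_mul_left t5 hKr
  have t7 : 2 * Real.log 2 * (d.X * Er) ≤ 3 * (ε / 8 * Real.log 2 * d.X) := by
    have x1 : Real.log 2 * d.X * (2 * Er) ≤ Real.log 2 * d.X * (3 * (ε / 8)) := by gcongr
    linarith
  have e0 : 0 ≤ ε / 8 * Real.log 2 * d.X := by positivity
  linarith

end Pool.KS2
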