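import Pool.Agent.H60.KS2.Core
import Pool.Agent.H66.KS2.Ful
import Pool.Agent.H66.KS2.Shift
import Pool.Agent.H82.KS2.Fin

/-!
# K_SAT2
-/

set_option autoImplicit false

namespace Pool.KS2

/-- **K_SAT2.** -/
theorem ksat2 : KSat2Stmt := ksat2_of (core_thm ful_thm shift_thm)

end Pool.KS2
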