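import Pool.Agent.H60.KS2.Lev

/-!
# The shift of the grid
-/

set_option autoImplicit false

namespace Pool.KS2

open Finset Real
open Pool.Agent.H49.Ent Pool.Agent.H32.Dense Pool.STK Pool.KAF Pool.OC Pool.OC.RS Pool.KAL Pool.KX

/-- **Shift.** For some shift of the grid the cells at the two times of a pair are rarely
different. -/
def ShiftStmt : Prop :=
  ∀ (d : CD) (s K : ℕ), d.OK s → 1 ≤ K → 6 * K ≤ s → ∃ u : ℤ,
    ∑ ℓ ∈ (Finset.range d.X).filter (fun ℓ => 6 * K ≤ ℓ ∧ ℓ + 7 * K ≤ d.X), ∑ j : Fin 3,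
      EE d.P (fun ω => (d.L j ω, (tl d.th ℓ ω, d.a ω)))
        (crs d.G (fun ω => (rr d.X (ℓ - 6 * K) (fun ω => d.N 0 ω + u) ω,
          rr d.X (ℓ - 6 * K) (fun ω => d.N 1 ω + u) ω))) ≤ 64 / 2 ^ (6 * K) * d.X

end Pool.KS2
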